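import Pool.Agent.H82.S3.Dus
import Pool.Agent.H73.S3.Cen

/-!
# H82 S3 DUT: the functionals of the letters `pp` have the precision of the next degree, `S = S'`
-/

set_option autoImplicit false

open scoped Classical commutatorElement

noncomputable section

namespace H82.S3

open H62.BL Pool.Agent.H61.Tu H88.S3

open H73.S3 (gm Gr gk Du SP il AD gk_surj gk_pow)

theorem cenq (P : Par) {α Q J V P' : Type} [Group Q] [MulAction Q α] [Group P'] [Fintype (Sp P α)] (X : AD (Sp P α) Q J V)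
    {k Mw q c : ℕ} [NeZero q] {Pi : SP (Sp P α) Q →* P'} (hX : X.Ok P.p k Mw q c Pi) {n : ℕ} (hn : n + 2 ≤ P.c) (τ : V → Sp P α)
    (x : J → SP (Sp P α) Q) (hx : ∀ j ∈ X.Jf, (x j).right = X.ph (X.W j))
    (η : X.Jf → Du (Sp P α) q (n + 1) × Du (Sp P α) q (n + 1 + 1)) (j : X.Jf) (hj : X.pp j)
    (hT : ∀ s : Sp P α, Pi (il (s ^ (P.p ^ P.M P.c))) = 1) (hne : X.Hh (n + 1) τ x η ≠ 0) (a : Gr (Sp P α) (n + 1)) :
    (η j).1.ap (P.q (n + 1) • a) = 0 := by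
  obtain ⟨u, hu, rfl⟩ := gk_surj (n + 1) a
  rw [← gk_pow hu]
  refine H73.S3.cen X hX (n + 1) (by omega) τ x hx η j hj _ (pow_mem hu _) (fun s => pow_cen P hu s) ?_ hne
  obtain ⟨k, hk⟩ : P.p ^ P.M P.c ∣ P.q (n + 1) := pow_dvd_pow _ (mok_le P.ok (by omega) hn le_rfl)
  rw [hk, mul_comm, pow_mul]
  exact hT _

end H82.S3
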