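import Pool.Agent.H73.S3.Fr
import Pool.Agent.H82.S3.Dut

/-!
# H82 S3 SGI: the instance `SG c S` of H73/S3/Fr, `S = Sp Pa (Px c)`
-/

set_option autoImplicit false

open scoped Classical commutatorElement

noncomputable section

namespace H82.S3

open Pool.Agent.H61.Tu H77.PC3 H35.UB H73.S3

section act

variable {p N : ℕ} {P : Type} [Group P] {c : CL p N P}

theorem cjx_one (x : Px c) : cjx (1 : P) x = x := Subtype.ext (by
  show 1 * x.1 * 1⁻¹ = x.1
  group)

theorem cjx_mul (g h : P) (x : Px c) : cjx (g * h) x = cjx g (cjx h x) := Subtype.ext (by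
  show g * h * x.1 * (g * h)⁻¹ = g * (h * x.1 * h⁻¹) * g⁻¹
  group)

/-- the action on the labels -/
instance px_act : MulAction P (Px c) where
  smul g x := cjx g x
  one_smul x := cjx_one x
  mul_smul g h x := cjx_mul g h x

theorem px_smul (g : P) (x : Px c) : g • x = cjx g x := rfl

variable (c) in
/-- the group generated by the labels -/
def TL : Subgroup P := Subgroup.closure (Set.range (Subtype.val : Px c → P))

theorem tl_eq : TL c = Subgroup.normalClosure (Set.range c.g) := by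
  apply le_antisymm
  · unfold TL
    rw [Subgroup.closure_le]
    rintro _ ⟨x, rfl⟩
    obtain ⟨i, hi⟩ := x.2
    obtain ⟨g, hg⟩ := isConj_iff.1 hi.symm
    rw [SetLike.mem_coe, ← hg]
    have h1 : c.g i ∈ Subgroup.normalClosure (Set.range c.g) := Subgroup.subset_normalClosure (Set.mem_range_self i)
    exact Subgroup.normalClosure_normal.conj_mem _ h1 g
  · have hn : (TL c).Normal := by
      refine ⟨fun t ht g => ?_⟩
      unfold TL at ht ⊢
      induction ht using Subgroup.closure_induction with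
      | mem x hx =>
        obtain ⟨x, rfl⟩ := hx
        exact Subgroup.subset_closure ⟨cjx g x, rfl⟩
      | one =>
        rw [mul_one, mul_inv_cancel]
        exact one_mem _
      | mul x y _ _ hx hy =>
        have h1 : g * (x * y) * g⁻¹ = (g * x * g⁻¹) * (g * y * g⁻¹) := by group
        rw [h1]
        exact mul_mem hx hy
      | inv x _ hx =>
        have h1 : g * x⁻¹ * g⁻¹ = (g * x * g⁻¹)⁻¹ := by group
        rw [h1]
        exact inv_mem hx
    refine Subgroup.normalClosure_le_normal ?_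
    rintro _ ⟨i, rfl⟩
    exact Subgroup.subset_closure ⟨⟨c.g i, i, IsConj.refl _⟩, rfl⟩

end act

section sg

variable {p N : ℕ} {P : Type} [Group P] {c : CL p N P}

theorem tl_mem (x : Px c) : x.1 ∈ TL c := Subgroup.subset_closure ⟨x, rfl⟩

/-- the instance -/
theorem sg_exists (Pa : Par) (h1 : gam (TL c) Pa.c = ⊥) (h2 : ∀ t ∈ TL c, t ^ (Pa.p ^ Pa.M Pa.c) = 1) :
    ∃ G : SG c (Sp Pa (Px c)), (∀ x, G.y x = sy Pa x) ∧ ∀ u, G.pi u ∈ TL c := by
  obtain ⟨f, hf⟩ := lft_exists' Pa (α := Px c) (T := TL c) h1 (fun t => Subtype.ext (h2 t.1 t.2)) fun x => ⟨x.1, tl_mem x⟩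
  have hpi : ∀ x, ((TL c).subtype.comp f) (sy Pa x) = x.1 := fun x => by
    rw [MonoidHom.comp_apply, hf]
    rfl
  refine ⟨⟨fun x => sy Pa x, (TL c).subtype.comp f, fun g x => smul_sy g x, hpi, fun g u => ?_, sy_gen Pa⟩, fun x => rfl,
    fun u => (f u).2⟩
  have h3 : ((TL c).subtype.comp f).comp (smap Pa fun a : Px c => g • a) =
      (MulAut.conj g).toMonoidHom.comp ((TL c).subtype.comp f) := by
    refine sp_hom_ext Pa _ _ fun a => ?_
    rw [MonoidHom.comp_apply, smap_sy, hpi, MonoidHom.comp_apply, hpi]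
    rfl
  exact DFunLike.congr_fun h3 u

/-- parameters -/
def mkPar (p : ℕ) (hp : p.Prime) (cc : ℕ) (hc : 1 ≤ cc) (r : ℕ) : Par where
  p := p
  c := cc
  M e := r + (cc - e) * cc
  hp := hp
  hc := hc
  ok e _ he := by
    have h1 : cc - e = (cc - (e + 1)) + 1 := by omega
    change r + (cc - (e + 1)) * cc + cc ≤ r + (cc - e) * cc
    rw [h1, add_mul, one_mul]
    omega

theorem mkPar_top (p : ℕ) (hp : p.Prime) (cc : ℕ) (hc : 1 ≤ cc) (r : ℕ) : (mkPar p hp cc hc r).M (mkPar p hp cc hc r).c = r := by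
  show r + (cc - cc) * cc = r
  rw [Nat.sub_self, zero_mul, add_zero]

/-- every finite `p`-group: the group `S'` for given labels -/
theorem sg_all (hp : p.Prime) [Finite P] (hP : IsPGroup p P) (c : CL p N P) (cc : ℕ) (hc : 1 ≤ cc) (h1 : gam (TL c) cc = ⊥) :
    ∃ Pa : Par, Pa.p = p ∧ Pa.c = cc ∧ (∀ t : P, t ^ (Pa.p ^ Pa.M Pa.c) = 1) ∧
      ∃ G : SG c (Sp Pa (Px c)), (∀ x, G.y x = sy Pa x) ∧ ∀ u, G.pi u ∈ TL c := by
  have : Fact p.Prime := ⟨hp⟩
  obtain ⟨r, hr⟩ := IsPGroup.iff_card.1 hP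
  have h2 : ∀ t : P, t ^ (p ^ r) = 1 := fun t => by rw [← hr]; exact pow_card_eq_one'
  refine ⟨mkPar p hp cc hc r, rfl, rfl, fun t => ?_, ?_⟩
  · rw [mkPar_top]
    exact h2 t
  · refine sg_exists (mkPar p hp cc hc r) h1 fun t _ => ?_
    rw [mkPar_top]
    exact h2 t

/-- a finite `p`-group has such a class -/
theorem tl_nil (hp : p.Prime) [Finite P] (hP : IsPGroup p P) (c : CL p N P) : ∃ cc : ℕ, 1 ≤ cc ∧ gam (TL c) cc = ⊥ := by
  have : Fact p.Prime := ⟨hp⟩
  have h1 : IsPGroup p (TL c) := hP.to_subgroup _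
  have h2 : Group.IsNilpotent (TL c) := h1.isNilpotent
  obtain ⟨n, hn⟩ := Subgroup.nilpotent_iff_lowerCentralSeries.1 h2
  refine ⟨n + 1, by omega, ?_⟩
  rw [eq_bot_iff]
  refine (gam_anti (Nat.le_succ n)).trans ?_
  exact hn.le

end sg

end H82.S3
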