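import Pool.Agent.H82.S3.Sgi
import Pool.Agent.H73.S3.Uns
import Pool.Agent.H51.S3.Unp

/-!
# H82 S3 FRE: the property `Fre` of H73/S3/Uns for `S = Sp Pa (Px c)` (all tuples unlinked gives a survivor)

`lq_br`: the class of `br w` is the class of the right normed commutator of the letters. `fre`: `1 ≤ m`, `m + 1 ≤ Pa.c`, `q` a power of `p` divisible by the precisions, `p ≠ 2` or `m ≤ 2`.
-/

set_option autoImplicit false

open scoped Classical commutatorElement

noncomputable section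

namespace H82.S3

open Pool.Agent.H61.Tu H77.PC3 H35.UB H62.BL H88.S3

open H73.S3 (gm Gr gk Du SG cjx SP il Ulk Fre gk_surj gk_pow gk_of gk_one)

section br

variable (P : Par) {α : Type}

theorem rn_eq {G : Type} [Group G] (l : List G) (a : G) : H62.BL.rn (l ++ [a]) = Pool.Agent.H61.Tu.rn l a := by
  induction l with
  | nil => rfl
  | cons b l ih =>
    rw [List.cons_append, rn_cons, ← ih]
    cases l with
    | nil => rfl
    | cons d l => rfl

theorem lq_br {n q : ℕ} (hn : n + 1 ≤ P.c) (hq : P.q n ∣ q) (w : List α) (hw : w.length = n + 1) :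
    lq P hn hq ⟨br w, ll_mem hw⟩ = gk (n + 1) (H62.BL.rn (w.map (sy P))) := by
  have hw0 : w ≠ [] := by rintro rfl; simp at hw
  obtain ⟨l, a, rfl⟩ : ∃ l a, w = l ++ [a] := ⟨_, _, (List.dropLast_append_getLast hw0).symm⟩
  have hl : l.length = n := by rw [List.length_append, List.length_singleton] at hw; omega
  subst hl
  have h1 : H62.BL.rn ((l ++ [a]).map (sy P)) = Pool.Agent.H61.Tu.rn (l.map (sy P)) (sy P a) := by
    rw [List.map_append, List.map_singleton, rn_eq]
  rw [h1]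
  have h2 : Pool.Agent.H61.Tu.rn (l.map (sy P)) (sy P a) ∈ gam (Sp P α) l.length := by
    have := rn_mem (l.map (sy P)) (mem0 (sy P a))
    rwa [Nat.zero_add, List.length_map] at this
  refine lq_eq P hn hq _ h2 ?_
  rw [dg_rn P l a hn]
  obtain ⟨x, hx⟩ : ∃ x : AW α ℤ, x = br (l ++ [a]) := ⟨_, rfl⟩
  have h3 : rd q x = (br (l ++ [a]) : List α → ZMod q) := by rw [hx]; exact rd_br q _
  have h4 : rd (P.q l.length) x = (br (l ++ [a]) : List α → ZMod (P.q l.length)) := by rw [hx]; exact rd_br _ _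
  have h5 : rc hq (br (l ++ [a]) : List α → ZMod q) = rc hq (rd q x) := by rw [h3]
  exact h4.symm.trans ((rc_rd hq x).symm.trans h5.symm)

end br

section fre

variable {p N : ℕ} {P : Type} [Group P] {c : CL p N P}

theorem fre (Pa : Par) (G : SG c (Sp Pa (Px c))) (hG : ∀ x, G.y x = sy Pa x)
    (hT : ∀ u, G.pi u ^ (Pa.p ^ Pa.M Pa.c) = 1) (m : ℕ) (hm : 1 ≤ m) (hmc : m + 1 ≤ Pa.c) (q r : ℕ) (hq : q = Pa.p ^ r)
    (hr : Pa.M 1 ≤ r) (h2 : Pa.p ≠ 2 ∨ m ≤ 2) : Fre G q m := by
  obtain ⟨n, rfl⟩ : ∃ n, m = n + 1 := ⟨m - 1, by omega⟩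
  have hqd : ∀ k, k + 1 ≤ Pa.c → Pa.q k ∣ q := by
    intro k hk
    rw [hq]
    exact pow_dvd_pow _ ((mok_le Pa.ok (by omega) (by omega) hk).trans hr)
  intro ι s χ Q hocc hcen h1 hU
  have hs : Function.Surjective s := fun a => by
    obtain ⟨v, -, hv⟩ := hocc a ∅ (by simp)
    exact ⟨v, hv⟩
  letI : MulAction Q (Px c) := MulAction.compHom (Px c) ((H1.S3.Sd.pr (F := P) (N := Du (Sp Pa (Px c)) q (n + 1 + 1))).comp Q.subtype)
  have hact : ∀ (u : Q) (a : Px c), u • a = cjx (u : H1.S3.Sd P (Du (Sp Pa (Px c)) q (n + 1 + 1))).x a := fun _ _ => rfl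
  let chi : ι → LL (ZMod q) (Px c) (n + 1) →ₗ[ZMod q] ZMod q := fun v =>
    AddMonoidHom.toZModLinearMap q ((χ v).ap.comp (lq Pa (by omega) (hqd n (by omega))))
  let kap : Q → LL (ZMod q) (Px c) (n + 2) →ₗ[ZMod q] ZMod q := fun u =>
    AddMonoidHom.toZModLinearMap q ((u : H1.S3.Sd P (Du (Sp Pa (Px c)) q (n + 1 + 1))).n.ap.comp (lq Pa (n := n + 1) (by omega) (hqd (n + 1) (by omega))))
  have hchi : ∀ v y, chi v y = (χ v).ap (lq Pa (by omega) (hqd n (by omega)) y) := fun _ _ => rfl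
  have hkap : ∀ u y, kap u y = (u : H1.S3.Sd P (Du (Sp Pa (Px c)) q (n + 1 + 1))).n.ap (lq Pa (n := n + 1) (by omega) (hqd (n + 1) (by omega)) y) :=
    fun _ _ => rfl
  have hev : ∀ (D : Fin (n + 1 + 1) → ι) (w : List (Fin (n + 1 + 1) × Q)),
      (w.map fun a => (a.2 : H1.S3.Sd P (Du (Sp Pa (Px c)) q (n + 1 + 1))).x • G.y (s (D a.1))) = (w.map (ew s D)).map (sy Pa) := by
    intro D w
    rw [List.map_map]
    refine List.map_congr_left fun a _ => ?_
    rw [G.smul_y, hG]
    rfl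
  have hH : ∀ D : Fin (n + 1 + 1) → ι, Function.Injective D → ∃ lam, P1 (G := Q) s chi D lam ∧ P2 s kap D lam := by
    intro D hD
    obtain ⟨lam, a1, a2⟩ := hU D hD
    refine ⟨lam, fun k w hw => ?_, fun u w hw => ?_⟩
    · have hl : (w.map (ew s D)).length = n + 1 := by
        have := hw.length_eq
        rw [List.length_cons, List.length_map, List.length_finRange] at this
        rw [List.length_map]
        omega
      rw [wv_eq _ hl, hchi, lq_br Pa _ _ _ hl, ← hev, ← a1 k w hw]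
    · have hl : (w.map (ew s D)).length = n + 1 + 1 := by
        have := hw.length_eq
        rw [List.length_map, List.length_finRange] at this
        rw [List.length_map]
        omega
      rw [wv_eq _ hl, hkap, lq_br Pa _ _ _ hl, ← hev, ← a2 u w hw]
  have h3 : IsUnit (2 : ZMod q) ∨ Even (n + 1) ∨ (∀ (v : ι) (h : [s v].length = n + 1), chi v ⟨br [s v], ll_mem h⟩ = 0) ∧ n + 1 = 1 := by
    rcases h2 with h2 | h2
    · left
      have h4 : Nat.Coprime 2 q := by
        rw [hq]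
        exact Nat.Coprime.pow_right _ ((Nat.coprime_primes Nat.prime_two Pa.hp).2 (Ne.symm h2))
      exact_mod_cast (ZMod.isUnit_iff_coprime 2 q).2 h4
    · rcases Nat.eq_zero_or_pos n with h4 | h4
      · right; right
        subst h4
        refine ⟨fun v h => ?_, rfl⟩
        rw [hchi, lq_br Pa _ _ _ h, List.map_singleton]
        have := h1 rfl v
        rw [hG] at this
        exact this
      · right; left
        have : n = 1 := by omega
        subst this
        exact ⟨1, rfl⟩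
  obtain ⟨la, l1, l2⟩ := H51.S3.unp (G := Q) (n := n + 1) (by omega) hocc hH h3
  have h0 : ∀ v a, (χ v).ap (Pa.q (n + 1) • a) = 0 := by
    intro v a
    obtain ⟨u, hu, rfl⟩ := gk_surj (n + 1) a
    rw [← gk_pow hu]
    refine hcen v _ (pow_mem hu _) (fun s => pow_cen Pa hu s) ?_
    obtain ⟨k, hk⟩ : Pa.p ^ Pa.M Pa.c ∣ Pa.q (n + 1) := pow_dvd_pow _ (mok_le Pa.ok (by omega) (by omega) le_rfl)
    rw [map_pow, hk, pow_mul, hT, one_pow]
  obtain ⟨lam, r1, r2⟩ := dus Pa (Q := Q) (n := n) (by omega) (hqd n (by omega)) (hqd (n + 1) (by omega)) s hs χ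
    (fun u => (u : H1.S3.Sd P (Du (Sp Pa (Px c)) q (n + 1 + 1))).n) h0 la (fun v y => (hchi v y).symm.trans (l1 v y.1 y.2))
    (fun u x => (hkap u x).symm.trans (l2 u x.1 x.2))
  refine ⟨lam, fun v z => ?_, fun u hu => ?_⟩
  · rw [r1, hG]
  · exact r2 ⟨u, hu⟩

end fre

end H82.S3
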