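import Pool.Agent.H73.S3.Bxc
import Pool.Agent.H71.S3.Sdp
import Pool.Agent.H88.S3.Unx
import Pool.Agent.H61.Tu.GamComm

/-!
# H82 S3 LGI: the instance of `LGx` for the stage `m = n + 1`

`PQ = (S ⋊ Q) / gam_(n+3)`, labels `(a, χ)`. See H73/S3/Lgs.
-/

set_option autoImplicit false

open scoped NumberField commutatorElement
open scoped Classical

noncomputable section

namespace H82.S3

open H77.PC3 H35.UB H73.S3 H71.S3 H1.S3 H62.BL H93.BY

open Pool.Agent.H61.Tu (gam commutator_mem_gam')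

section gen

variable {S : Type} [Group S]

theorem gk_cong {m : ℕ} {u v : S} (hu : u ∈ gm S m) (hv : v ∈ gm S m) (h : u⁻¹ * v ∈ gm S (m + 1)) : gk m u = gk m v := by
  have h1 : gk m (u⁻¹ * v) = 0 := (gk_zero (mul_mem (inv_mem hu) hv)).2 h
  rw [gk_mul (inv_mem hu) hv, gk_inv hu] at h1
  exact neg_add_eq_zero.1 h1

theorem gm_le {i j : ℕ} (h : i ≤ j) : gm S j ≤ gm S i := by
  induction j, h using Nat.le_induction with
  | base => exact le_rfl
  | succ j _ ih => exact (gm_anti j).trans ih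

theorem gm_comm2 {i j : ℕ} (hi : 1 ≤ i) (hj : 1 ≤ j) {u v : S} (hu : u ∈ gm S i) (hv : v ∈ gm S j) : ⁅u, v⁆ ∈ gm S (i + j) := by
  obtain ⟨a, rfl⟩ : ∃ a, i = a + 1 := ⟨i - 1, by omega⟩
  obtain ⟨b, rfl⟩ : ∃ b, j = b + 1 := ⟨j - 1, by omega⟩
  have h := commutator_mem_gam' (G := S) (i := a) (j := b) hu hv
  have e : a + 1 + (b + 1) = a + b + 1 + 1 := by omega
  rw [e]
  exact h

end gen

section quo

variable {S Q : Type} [Group S] [Group Q] [MulDistribMulAction Q S] {q : ℕ}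

variable (S Q) in
/-- the kernel -/
def Kn (N : ℕ) : Subgroup (SP S Q) := (gm S N).map (SemidirectProduct.inl : S →* SP S Q)

theorem mem_kn {N : ℕ} {x : SP S Q} : x ∈ Kn S Q N ↔ ∃ u ∈ gm S N, x = il u := by
  constructor
  · rintro ⟨u, hu, rfl⟩
    exact ⟨u, hu, rfl⟩
  · rintro ⟨u, hu, rfl⟩
    exact ⟨u, hu, rfl⟩

instance kn_nrm (N : ℕ) : (Kn S Q N).Normal := ⟨fun x hx z => by
  obtain ⟨u, hu, rfl⟩ := mem_kn.1 hx
  rw [cjl_il]
  exact mem_kn.2 ⟨_, cjl_mem z hu, rfl⟩⟩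

variable (S Q) in
/-- the quotient -/
abbrev Pq (N : ℕ) : Type := SP S Q ⧸ Kn S Q N

variable (S Q) in
/-- the projection -/
def mq (N : ℕ) : SP S Q →* Pq S Q N := QuotientGroup.mk' (Kn S Q N)

theorem mq_surj (N : ℕ) : Function.Surjective (mq S Q N) := QuotientGroup.mk'_surjective _

theorem mq_one {N : ℕ} {x : SP S Q} : mq S Q N x = 1 ↔ ∃ u ∈ gm S N, x = il u :=
  (QuotientGroup.eq_one_iff x).trans mem_kn

/-- the filtration -/
def fI (N i : ℕ) : Subgroup (Pq S Q N) :=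
  if i = 0 then ⊤ else (gm S i).map ((mq S Q N).comp (SemidirectProduct.inl : S →* SP S Q))

theorem mem_fI {N i : ℕ} (hi : 1 ≤ i) {x : Pq S Q N} : x ∈ fI N i ↔ ∃ u ∈ gm S i, x = mq S Q N (il u) := by
  unfold fI
  rw [if_neg (by omega)]
  constructor
  · rintro ⟨u, hu, rfl⟩
    exact ⟨u, hu, rfl⟩
  · rintro ⟨u, hu, rfl⟩
    exact ⟨u, hu, rfl⟩

theorem mq_conj (N : ℕ) (z : SP S Q) (u : S) : mq S Q N z * mq S Q N (il u) * (mq S Q N z)⁻¹ = mq S Q N (il (cjl z u)) := by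
  rw [← map_mul, ← map_inv, ← map_mul, cjl_il]

theorem fI_fl (N : ℕ) : Fl (fI (S := S) (Q := Q) N) where
  top := if_pos rfl
  anti i := by
    rcases Nat.eq_zero_or_pos i with h | h
    · subst h
      have : fI (S := S) (Q := Q) N 0 = ⊤ := if_pos rfl
      rw [this]
      exact le_top
    · intro x hx
      obtain ⟨u, hu, rfl⟩ := (mem_fI (by omega)).1 hx
      exact (mem_fI h).2 ⟨u, gm_anti i hu, rfl⟩
  com i j a ha b hb := by
    have key : ∀ (a : Pq S Q N) (j : ℕ), 1 ≤ j → ∀ b ∈ fI N j, a * b * a⁻¹ * b⁻¹ ∈ fI N j := by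
      intro a j hj b hb
      obtain ⟨z, rfl⟩ := mq_surj N a
      obtain ⟨u, hu, rfl⟩ := (mem_fI hj).1 hb
      rw [mq_conj]
      exact mul_mem ((mem_fI hj).2 ⟨_, cjl_mem z hu, rfl⟩) (inv_mem hb)
    rcases Nat.eq_zero_or_pos i with h | h
    · subst h
      rw [Nat.zero_add]
      rcases Nat.eq_zero_or_pos j with h' | h'
      · subst h'
        have : fI (S := S) (Q := Q) N 0 = ⊤ := if_pos rfl
        rw [this]
        exact Subgroup.mem_top _
      · exact key a j h' b hb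
    · rcases Nat.eq_zero_or_pos j with h' | h'
      · subst h'
        rw [Nat.add_zero]
        have h1 := key b i h a ha
        have h2 : a * b * a⁻¹ * b⁻¹ = (b * a * b⁻¹ * a⁻¹)⁻¹ := by group
        rw [h2]
        exact inv_mem h1
      · obtain ⟨u, hu, rfl⟩ := (mem_fI h).1 ha
        obtain ⟨v, hv, rfl⟩ := (mem_fI h').1 hb
        refine (mem_fI (by omega)).2 ⟨⁅u, v⁆, gm_comm2 h h' hu hv, ?_⟩
        rw [commutatorElement_def, il_mul, il_mul, il_mul, il_inv, il_inv, map_mul, map_mul, map_mul, map_inv, map_inv]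

/-- the value of a functional at an element of the quotient -/
def vx {N : ℕ} (m : ℕ) (χ : Du S q m) (x : Pq S Q N) : ZMod q :=
  if h : ∃ u ∈ gm S m, x = mq S Q N (il u) then χ.ap (gk m h.choose) else 0

theorem vx_il {N m : ℕ} (hm : m < N) (χ : Du S q m) {u : S} (hu : u ∈ gm S m) : vx m χ (mq S Q N (il u)) = χ.ap (gk m u) := by
  have h : ∃ v ∈ gm S m, mq S Q N (il u) = mq S Q N (il v) := ⟨u, hu, rfl⟩
  unfold vx
  rw [dif_pos h]
  congr 1
  have h1 := h.choose_spec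
  set v := h.choose
  have h2 : mq S Q N (il (u⁻¹ * v)) = 1 := by
    rw [il_mul, il_inv, map_mul, map_inv, ← h1.2, inv_mul_cancel]
  obtain ⟨w, hw, hw'⟩ := mq_one.1 h2
  rw [← il_inj hw'] at hw
  exact (gk_cong hu h1.1 (gm_le (by omega) hw)).symm

theorem vx_add {N m : ℕ} (hm : m < N) (h1 : 1 ≤ m) (χ : Du S q m) {x y : Pq S Q N} (hx : x ∈ fI N m) (hy : y ∈ fI N m) :
    vx m χ (x * y) = vx m χ x + vx m χ y := by
  obtain ⟨u, hu, rfl⟩ := (mem_fI h1).1 hx
  obtain ⟨v, hv, rfl⟩ := (mem_fI h1).1 hy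
  rw [← map_mul, ← il_mul, vx_il hm χ (mul_mem hu hv), vx_il hm χ hu, vx_il hm χ hv, gk_mul hu hv]
  exact map_add _ _ _

theorem vx_bot {N m : ℕ} (hm : m < N) (χ : Du S q m) {x : Pq S Q N} (hx : x ∈ fI N (m + 1)) : vx m χ x = 0 := by
  obtain ⟨u, hu, rfl⟩ := (mem_fI (by omega)).1 hx
  rw [vx_il hm χ (gm_anti m hu), (gk_zero (gm_anti m hu)).2 hu]
  exact map_zero _

/-- the projection to `Q` -/
def piq (N : ℕ) : Pq S Q N →* Q :=
  QuotientGroup.lift (Kn S Q N) SemidirectProduct.rightHom fun x hx => by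
    obtain ⟨u, _, rfl⟩ := mem_kn.1 hx
    rfl

theorem piq_mq {N : ℕ} (z : SP S Q) : piq N (mq S Q N z) = z.right := rfl

theorem mq_pgroup {p N : ℕ} (hS : IsPGroup p S) (hQ : IsPGroup p Q) : IsPGroup p (Pq S Q N) := by
  intro x
  obtain ⟨z, rfl⟩ := mq_surj N x
  obtain ⟨k, hk⟩ := hQ z.right
  have h1 : (z ^ p ^ k).right = 1 := by
    have : (SemidirectProduct.rightHom (z ^ p ^ k) : Q) = 1 := by rw [map_pow]; exact hk
    exact this
  obtain ⟨j, hj⟩ := hS (z ^ p ^ k).left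
  refine ⟨k + j, ?_⟩
  rw [← map_pow, pow_add, pow_mul, il_of h1]
  have h2 : (il (z ^ p ^ k).left : SP S Q) ^ p ^ j = il ((z ^ p ^ k).left ^ p ^ j) := (map_pow _ _ _).symm
  rw [h2, hj, il_one, map_one]

end quo

section inst

variable {p N : ℕ} {P : Type} [Group P] {c : CL p N P} {S : Type} [Group S]
  [MulDistribMulAction P S] {q n : ℕ}

variable (c S q n) in
/-- labels -/
@[ext] structure Lbl where
  a : Px c
  χ : Du S q (n + 1)

instance [Finite P] [Finite S] [NeZero q] : Finite (Lbl c S q n) :=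
  Finite.of_injective (fun x : Lbl c S q n => (x.a, x.χ)) fun x y h => by
    simp only [Prod.mk.injEq] at h
    exact Lbl.ext h.1 h.2

theorem lbl_card [Finite P] [Finite S] [NeZero q] : Nat.card (Lbl c S q n) ≤ Nat.card (Px c) * Nat.card (Du S q (n + 1)) := by
  rw [← Nat.card_prod]
  refine Nat.card_le_card_of_injective (fun x : Lbl c S q n => (x.a, x.χ)) fun x y h => ?_
  simp only [Prod.mk.injEq] at h
  exact Lbl.ext h.1 h.2

/-- the twist -/
def twl (G : SG c S) (g : Du S q (n + 1 + 1)) (a : Px c) : Du S q (n + 1) := (g.ap.comp (br (n + 1) (G.y a)) : Gr S (n + 1) →+ ZMod q)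

theorem twl_ap (G : SG c S) (g : Du S q (n + 1 + 1)) (a : Px c) (z : Gr S (n + 1)) :
    (twl G g a).ap z = g.ap (br (n + 1) (G.y a) z) := rfl

/-- the action on the labels -/
def lact (G : SG c S) (g : Sd P (Du S q (n + 1 + 1))) (x : Lbl c S q n) : Lbl c S q n :=
  ⟨cjx g.x x.a, g.x • x.χ + twl G g.n (cjx g.x x.a)⟩

theorem lact_one (G : SG c S) (x : Lbl c S q n) : lact G 1 x = x := by
  refine Lbl.ext (Subtype.ext ?_) (du_ext fun z => ?_)
  · show 1 * x.a.1 * 1⁻¹ = x.a.1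
    group
  · show ((1 : P) • x.χ + twl G 0 _).ap z = x.χ.ap z
    rw [ap_add, twl_ap, ap_zero, add_zero, one_smul]

theorem lact_mul (G : SG c S) (g h : Sd P (Du S q (n + 1 + 1))) (x : Lbl c S q n) : lact G (g * h) x = lact G g (lact G h x) := by
  have h1 : cjx (g.x * h.x) x.a = cjx g.x (cjx h.x x.a) := Subtype.ext (by
    show g.x * h.x * x.a.1 * (g.x * h.x)⁻¹ = g.x * (h.x * x.a.1 * h.x⁻¹) * g.x⁻¹
    group)
  refine Lbl.ext h1 (du_ext fun z => ?_)
  show ((g.x * h.x) • x.χ + twl G (g.n + g.x • h.n) (cjx (g.x * h.x) x.a)).ap z =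
    (g.x • (h.x • x.χ + twl G h.n (cjx h.x x.a)) + twl G g.n (cjx g.x (cjx h.x x.a))).ap z
  rw [h1, ap_add, ap_add, twl_ap, twl_ap, ap_add, ap_smul, ap_smul, ap_smul, ap_add, ap_smul, twl_ap, mul_inv_rev, mul_smul,
    smul_br, G.smul_y]
  have h2 : cjx g.x⁻¹ (cjx g.x (cjx h.x x.a)) = cjx h.x x.a := Subtype.ext (by
    show g.x⁻¹ * (g.x * (h.x * x.a.1 * h.x⁻¹) * g.x⁻¹) * g.x⁻¹⁻¹ = h.x * x.a.1 * h.x⁻¹
    group)
  rw [h2]
  ring

theorem act_gk {Q : Subgroup (Sd P (Du S q (n + 1 + 1)))} (g : Q) {m : ℕ} {u : S} (hu : u ∈ gm S m) :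
    g • gk m u = (g : Sd P (Du S q (n + 1 + 1))).x • gk m u := by
  rw [smul_gk g hu, smul_gk _ hu]
  rfl

/-- the group data -/
def lgd [Finite S] [NeZero q] (G : SG c S) (hq : ∀ s : S, s ^ q = 1) (Q : Subgroup (Sd P (Du S q (n + 1 + 1))))
    [MulAction Q (Lbl c S q n)] (hact : ∀ (g : Q) (x : Lbl c S q n), g • x = lact G g x) :
    LGx q n (Pq S Q (n + 3)) Q (Lbl c S q n) where
  D :=
    { f := fI (n + 3)
      fl := fI_fl (n + 3)
      bot := by
        rw [eq_bot_iff]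
        intro x hx
        obtain ⟨u, hu, rfl⟩ := (mem_fI (by omega)).1 hx
        exact mq_one.2 ⟨u, hu, rfl⟩
      pp := by
        intro i hi x hx
        obtain ⟨u, hu, rfl⟩ := (mem_fI hi).1 hx
        have h1 : mq S Q (n + 3) (il u) ^ q = 1 := by
          rw [← map_pow]
          have h2 : (il u : SP S Q) ^ q = il (u ^ q) := (map_pow _ _ _).symm
          rw [h2, hq, il_one, map_one]
        rw [h1]
        exact one_mem _
      pi := piq (n + 3)
      sur := fun g => ⟨mq S Q (n + 3) (SemidirectProduct.inr g), rfl⟩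
      ker := by
        intro x
        obtain ⟨z, rfl⟩ := mq_surj (n + 3) x
        rw [piq_mq, mem_fI le_rfl]
        constructor
        · intro h
          exact ⟨z.left, Subgroup.mem_top _, congrArg _ (il_of h)⟩
        · rintro ⟨u, _, hu⟩
          have h1 := congrArg (piq (n + 3)) hu
          rw [piq_mq, piq_mq] at h1
          exact h1
      s := fun a => mq S Q (n + 3) (il (G.y a.a))
      s_mem := fun a => (mem_fI le_rfl).2 ⟨_, Subgroup.mem_top _, rfl⟩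
      s_act := by
        intro x a
        obtain ⟨z, rfl⟩ := mq_surj (n + 3) x
        rw [piq_mq, hact, mq_conj]
        have h1 : G.y (lact G (z.right : Sd P (Du S q (n + 1 + 1))) a).a = z.right • G.y a.a :=
          (G.smul_y (z.right : Sd P (Du S q (n + 1 + 1))).x a.a).symm
        rw [h1, ← map_inv, ← il_inv, ← map_mul, ← il_mul]
        refine (mem_fI (by omega)).2 ⟨_, ?_, rfl⟩
        have h2 : z.right • G.y a.a * (cjl z (G.y a.a))⁻¹ = ⁅z.right • G.y a.a, z.left⁆ := by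
          unfold cjl
          rw [commutatorElement_def]
          group
        rw [h2]
        exact gm_comm 1 (Subgroup.mem_top _)
      ch := fun _ _ => 0
      ch_add := fun _ _ _ _ _ => (add_zero 0).symm
      ch_act := fun _ _ _ _ => rfl }
  ka g x := vx (n + 1 + 1) (g : Sd P (Du S q (n + 1 + 1))).n x
  ka_add g x hx y hy := vx_add (by omega) (by omega) _ hx hy
  ka_mul x g u hu := by
    obtain ⟨z, rfl⟩ := mq_surj (n + 3) x
    obtain ⟨v, hv, rfl⟩ := (mem_fI (by omega)).1 hu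
    have h1 : (mq S Q (n + 3) z)⁻¹ * mq S Q (n + 3) (il v) * mq S Q (n + 3) z = mq S Q (n + 3) (il (cjl z⁻¹ v)) := by
      rw [← mq_conj, map_inv, inv_inv]
    rw [h1, vx_il (by omega) _ hv, vx_il (by omega) _ hv, vx_il (by omega) _ (cjl_mem z⁻¹ hv), cjl_gk z⁻¹ hv, act_gk _ hv]
    change ((piq (n + 3) (mq S Q (n + 3) z) * g : Q) : Sd P (Du S q (n + 1 + 1))).n.ap (gk (n + 2) v) = _
    rw [piq_mq]
    change ((z.right : Sd P (Du S q (n + 1 + 1))).n + (z.right : Sd P (Du S q (n + 1 + 1))).x • (g : Sd P (Du S q (n + 1 + 1))).n).ap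
      (gk (n + 2) v) = _
    rw [ap_add, ap_smul]
    rfl
  ch a x := vx (n + 1) a.χ x
  ch_add a x hx y hy := vx_add (by omega) (by omega) _ hx hy
  ch_bot a x hx := vx_bot (by omega) _ hx
  ch_act x a y hy := by
    obtain ⟨z, rfl⟩ := mq_surj (n + 3) x
    obtain ⟨v, hv, rfl⟩ := (mem_fI (by omega)).1 hy
    change vx (n + 1) ((piq (n + 3) (mq S Q (n + 3) z)) • a).χ (mq S Q (n + 3) z * mq S Q (n + 3) (il v) * (mq S Q (n + 3) z)⁻¹) =
      vx (n + 1) a.χ (mq S Q (n + 3) (il v)) + vx (n + 1 + 1) ((piq (n + 3) (mq S Q (n + 3) z) : Q) : Sd P (Du S q (n + 1 + 1))).n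
        (mq S Q (n + 3) (il (G.y ((piq (n + 3) (mq S Q (n + 3) z)) • a).a)) * (mq S Q (n + 3) z * mq S Q (n + 3) (il v) * (mq S Q (n + 3) z)⁻¹) *
          (mq S Q (n + 3) (il (G.y ((piq (n + 3) (mq S Q (n + 3) z)) • a).a)))⁻¹ * (mq S Q (n + 3) z * mq S Q (n + 3) (il v) * (mq S Q (n + 3) z)⁻¹)⁻¹)
    rw [piq_mq, mq_conj, hact]
    set g : Sd P (Du S q (n + 1 + 1)) := (z.right : Sd P (Du S q (n + 1 + 1))) with hg
    set w := cjl z v with hw
    have hwm : w ∈ gm S (n + 1) := cjl_mem z hv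
    have e1 : mq S Q (n + 3) (il (G.y (lact G g a).a)) * mq S Q (n + 3) (il w) * (mq S Q (n + 3) (il (G.y (lact G g a).a)))⁻¹ *
        (mq S Q (n + 3) (il w))⁻¹ = mq S Q (n + 3) (il ⁅G.y (lact G g a).a, w⁆) := by
      rw [commutatorElement_def, il_mul, il_mul, il_mul, il_inv, il_inv, map_mul, map_mul, map_mul, map_inv, map_inv]
    rw [e1, vx_il (by omega) _ hwm, vx_il (by omega) _ hv, vx_il (m := n + 1 + 1) (by omega) _ (gm_comm' (n + 1) hwm), ← br_gk _ hwm]
    have e2 : (lact G g a).χ = g.x • a.χ + twl G g.n (lact G g a).a := rfl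
    rw [e2, ap_add, twl_ap, ap_smul]
    congr 2
    rw [hw, cjl_gk z hv, act_gk _ hv, ← hg, inv_smul_smul]

end inst

end H82.S3
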