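import Pool.Agent.H61.Tu.GamGen
import Mathlib.Algebra.DirectSum.Module
import Mathlib.Algebra.Lie.Basic

/-!
# H82 S3 GRL: the graded Lie ring of the lower central series of a group

`gam G n` is the `n`-th term, `gam G 0 = ⊤`. `grq G n = gam G n / gam G (n + 1)`, `GrL G` the direct sum, a Lie ring with
`⁅hm i g, hm j h⁆ = hm (i + j + 1) ⁅g, h⁆`.
-/

set_option autoImplicit false

open scoped Classical commutatorElement DirectSum

noncomputable section

namespace H82.S3

open Pool.Agent.H61.Tu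

variable {G : Type} [Group G]

instance gam_nrm (n : ℕ) : (gam G n).Normal := gam_normal G n

variable (G) in
/-- the quotient `gam n / gam (n + 1)` -/
abbrev grq (n : ℕ) : Type := gam G n ⧸ (gam G (n + 1)).subgroupOf (gam G n)

theorem gcl_one_iff {n : ℕ} (x : gam G n) : (x : grq G n) = 1 ↔ (x : G) ∈ gam G (n + 1) := by
  rw [QuotientGroup.eq_one_iff, Subgroup.mem_subgroupOf]

theorem gcl_eq_iff {n : ℕ} (x y : gam G n) : (x : grq G n) = y ↔ (x : G)⁻¹ * y ∈ gam G (n + 1) := by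
  rw [QuotientGroup.eq, Subgroup.mem_subgroupOf]
  rfl

instance grq_comm (n : ℕ) : CommGroup (grq G n) where
  mul_comm a b := by
    obtain ⟨x, rfl⟩ := QuotientGroup.mk_surjective a
    obtain ⟨y, rfl⟩ := QuotientGroup.mk_surjective b
    rw [← QuotientGroup.mk_mul, ← QuotientGroup.mk_mul, gcl_eq_iff]
    have h1 : ⁅(y : G)⁻¹, (x : G)⁻¹⁆ ∈ gam G (n + n + 1) :=
      commutator_mem_gam' (inv_mem y.2) (inv_mem x.2)
    have h2 : ((x * y : gam G n) : G)⁻¹ * (y * x : gam G n) = ⁅(y : G)⁻¹, (x : G)⁻¹⁆ := by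
      rw [Subgroup.coe_mul, Subgroup.coe_mul, commutatorElement_def]
      group
    rw [h2]
    exact gam_anti (by omega) h1

theorem comm_mem {i j : ℕ} (g : gam G i) (h : gam G j) : ⁅(g : G), (h : G)⁆ ∈ gam G (i + j + 1) :=
  commutator_mem_gam' g.2 h.2

/-- the commutator as an element of the term -/
def cme {i j : ℕ} (g : gam G i) (h : gam G j) : gam G (i + j + 1) := ⟨⁅(g : G), (h : G)⁆, comm_mem g h⟩

theorem cme_mul_right {i j : ℕ} (g : gam G i) (h h' : gam G j) :
    (cme g (h * h') : grq G (i + j + 1)) = cme g h * cme g h' := by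
  rw [← QuotientGroup.mk_mul, gcl_eq_iff]
  have e : ((cme g (h * h') : G))⁻¹ * ((cme g h * cme g h' : gam G (i + j + 1)) : G) =
      ⁅(h : G), (⁅(g : G), (h' : G)⁆)⁻¹⁆ := by
    rw [Subgroup.coe_mul]
    simp only [cme, Subgroup.coe_mul, commutatorElement_def]
    group
  rw [e]
  exact (commutator_mem_gam (inv_mem (comm_mem g h')) (h : G)).2

theorem cme_mul_left {i j : ℕ} (g g' : gam G i) (h : gam G j) :
    (cme (g * g') h : grq G (i + j + 1)) = cme g h * cme g' h := by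
  rw [mul_comm, ← QuotientGroup.mk_mul, gcl_eq_iff]
  have e : ((cme (g * g') h : G))⁻¹ * ((cme g' h * cme g h : gam G (i + j + 1)) : G) =
      (⁅(g : G), (h : G)⁆)⁻¹ * ⁅(g : G), (⁅(g' : G), (h : G)⁆)⁻¹⁆ * ((⁅(g : G), (h : G)⁆)⁻¹)⁻¹ := by
    rw [Subgroup.coe_mul]
    simp only [cme, Subgroup.coe_mul, commutatorElement_def]
    group
  rw [e]
  exact (gam_nrm (G := G) (i + j + 1 + 1)).conj_mem _
    (commutator_mem_gam (inv_mem (comm_mem g' h)) (g : G)).2 _

/-- the commutator with a fixed element -/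
def cmr {i : ℕ} (j : ℕ) (g : gam G i) : grq G j →* grq G (i + j + 1) :=
  QuotientGroup.lift _ (MonoidHom.mk' (fun h => (cme g h : grq G (i + j + 1))) (cme_mul_right g))
    fun h hh => by
      rw [Subgroup.mem_subgroupOf] at hh
      change (cme g h : grq G (i + j + 1)) = 1
      rw [gcl_one_iff]
      have h1 := commutator_mem_gam' g.2 hh
      rw [show i + (j + 1) + 1 = i + j + 1 + 1 by omega] at h1
      exact h1

theorem cmr_mk {i j : ℕ} (g : gam G i) (h : gam G j) : cmr j g (h : grq G j) = (cme g h : grq G (i + j + 1)) :=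
  rfl

/-- the bracket -/
def cmb (i j : ℕ) : grq G i →* grq G j →* grq G (i + j + 1) :=
  QuotientGroup.lift _ (MonoidHom.mk' (fun g => cmr j g) fun g g' => by
      ext h
      exact cme_mul_left g g' h)
    fun g hg => by
      rw [Subgroup.mem_subgroupOf] at hg
      ext h
      change (cme g h : grq G (i + j + 1)) = 1
      rw [gcl_one_iff]
      have := commutator_mem_gam' hg h.2
      rw [show i + 1 + j + 1 = i + j + 1 + 1 by omega] at this
      exact this

theorem cmb_mk {i j : ℕ} (g : gam G i) (h : gam G j) :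
    cmb i j (g : grq G i) (h : grq G j) = (cme g h : grq G (i + j + 1)) := rfl

variable (G) in
/-- the graded Lie ring -/
abbrev GrL : Type := ⨁ n : ℕ, Additive (grq G n)

/-- the class of an element of `gam n` -/
def hm (n : ℕ) (g : G) (hg : g ∈ gam G n) : GrL G :=
  DirectSum.of (fun n : ℕ => Additive (grq G n)) n (Additive.ofMul ((⟨g, hg⟩ : gam G n) : grq G n))

theorem hm_congr {n n' : ℕ} {g g' : G} (hn : n = n') (hgg : g = g') (hg : g ∈ gam G n) (hg' : g' ∈ gam G n') :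
    hm n g hg = hm n' g' hg' := by
  subst hn hgg
  rfl

theorem hm_mul (n : ℕ) {g h : G} (hg : g ∈ gam G n) (hh : h ∈ gam G n) :
    hm n (g * h) (mul_mem hg hh) = hm n g hg + hm n h hh := by
  unfold hm
  rw [← map_add]
  rfl

theorem hm_eq_zero {n : ℕ} {g : G} (hg : g ∈ gam G n) : hm n g hg = 0 ↔ g ∈ gam G (n + 1) := by
  unfold hm
  rw [map_eq_zero_iff _ (DirectSum.of_injective n), ← gcl_one_iff ⟨g, hg⟩]
  exact Iff.rfl

theorem hm_one (n : ℕ) : hm n (1 : G) (one_mem _) = 0 := (hm_eq_zero _).2 (one_mem _)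

theorem hm_inv (n : ℕ) {g : G} (hg : g ∈ gam G n) : hm n g⁻¹ (inv_mem hg) = - hm n g hg := by
  rw [eq_neg_iff_add_eq_zero, ← hm_mul, hm_eq_zero, inv_mul_cancel]
  exact one_mem _

/-- the bracket on the direct sum -/
def brl : GrL G →+ GrL G →+ GrL G :=
  DirectSum.toAddMonoid fun i => AddMonoidHom.flip (DirectSum.toAddMonoid fun j =>
    AddMonoidHom.flip (AddMonoidHom.mk' (fun a : Additive (grq G i) =>
      (DirectSum.of (fun n : ℕ => Additive (grq G n)) (i + j + 1)).comp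
        (MonoidHom.toAdditive (cmb i j a.toMul))) fun a b => by
      refine AddMonoidHom.ext fun c => ?_
      have h1 : cmb i j (a + b).toMul c.toMul = cmb i j a.toMul c.toMul * cmb i j b.toMul c.toMul := by
        rw [toMul_add, map_mul]
        rfl
      change DirectSum.of (fun n : ℕ => Additive (grq G n)) _ (Additive.ofMul (cmb i j (a + b).toMul c.toMul)) =
        DirectSum.of (fun n : ℕ => Additive (grq G n)) _ (Additive.ofMul (cmb i j a.toMul c.toMul)) +
        DirectSum.of (fun n : ℕ => Additive (grq G n)) _ (Additive.ofMul (cmb i j b.toMul c.toMul))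
      rw [h1, ofMul_mul, map_add]))

theorem brl_hm {i j : ℕ} {g h : G} (hg : g ∈ gam G i) (hh : h ∈ gam G j) :
    brl (hm i g hg) (hm j h hh) = hm (i + j + 1) ⁅g, h⁆ (commutator_mem_gam' hg hh) := by
  unfold brl hm
  rw [DirectSum.toAddMonoid_of, AddMonoidHom.flip_apply, DirectSum.toAddMonoid_of]
  rfl

/-- every element of degree `n` is the class of an element -/
theorem of_eq_hm (n : ℕ) (a : Additive (grq G n)) : ∃ (g : G) (hg : g ∈ gam G n),
    DirectSum.of (fun n : ℕ => Additive (grq G n)) n a = hm n g hg := by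
  obtain ⟨x, hx⟩ := QuotientGroup.mk_surjective a.toMul
  exact ⟨x, x.2, by unfold hm; rw [hx]; rfl⟩

theorem gr_ind {C : GrL G → Prop} (h0 : C 0) (h1 : ∀ (n : ℕ) (g : G) (hg : g ∈ gam G n), C (hm n g hg))
    (h2 : ∀ x y, C x → C y → C (x + y)) (x : GrL G) : C x := by
  induction x using DirectSum.induction_on with
  | zero => exact h0
  | of n a =>
    obtain ⟨g, hg, h⟩ := of_eq_hm n a
    rw [h]
    exact h1 n g hg
  | add x y hx hy => exact h2 x y hx hy

theorem brl_anti (x y : GrL G) : brl x y = - brl y x := by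
  induction x using gr_ind with
  | h0 => simp
  | h1 i g hg =>
    induction y using gr_ind with
    | h0 => simp
    | h1 j h hh =>
      rw [brl_hm, brl_hm, ← hm_inv]
      exact hm_congr (by omega) (commutatorElement_inv h g).symm _ _
    | h2 y y' h h' => rw [map_add, h, h', map_add, AddMonoidHom.add_apply, neg_add]
  | h2 x x' h h' => rw [map_add, AddMonoidHom.add_apply, h, h', map_add, neg_add]

theorem brl_self (x : GrL G) : brl x x = 0 := by
  induction x using gr_ind with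
  | h0 => simp
  | h1 i g hg =>
    rw [brl_hm, hm_eq_zero, commutatorElement_self]
    exact one_mem _
  | h2 x y h h' =>
    simp only [map_add, AddMonoidHom.add_apply, h, h']
    rw [brl_anti x y]
    abel

private theorem qc {i j t : ℕ} {a b : G} (ha : a ∈ gam G i) (hb : b ∈ gam G j) (ht : t ≤ i + j + 1) :
    (QuotientGroup.mk a : G ⧸ gam G t) * QuotientGroup.mk b = QuotientGroup.mk b * QuotientGroup.mk a := by
  have h1 : ⁅a, b⁆ ∈ gam G t := gam_anti ht (commutator_mem_gam' ha hb)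
  have h2 : ((⁅a, b⁆ : G) : G ⧸ gam G t) = 1 := (QuotientGroup.eq_one_iff _).2 h1
  have h3 : ⁅(a : G ⧸ gam G t), (b : G ⧸ gam G t)⁆ = 1 := h2
  exact commutatorElement_eq_one_iff_mul_comm.1 h3

private theorem jacQ {Q : Type*} [Group Q] (z u g : Q) (h1 : ⁅z, u⁆ * ⁅z, g⁆ = ⁅z, g⁆ * ⁅z, u⁆)
    (h2 : ⁅z, u⁆ * ⁅u, g⁆ = ⁅u, g⁆ * ⁅z, u⁆) (h3 : ⁅z, g⁆ * ⁅u, g⁆ = ⁅u, g⁆ * ⁅z, g⁆)
    (hD : ∀ x, ⁅u, ⁅z, g⁆⁆ * x = x * ⁅u, ⁅z, g⁆⁆) (hE : ∀ x, ⁅⁅z, u⁆, g⁆ * x = x * ⁅⁅z, u⁆, g⁆) :
    ⁅z, ⁅u, g⁆⁆ = ⁅⁅z, u⁆, g⁆ * ⁅u, ⁅z, g⁆⁆ := by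
  have e0 : ⁅z, ⁅u, g⁆⁆ = ⁅z, u⁆ * u * ⁅z, g⁆ * g * u⁻¹ * ⁅z, u⁆⁻¹ * g⁻¹ * ⁅z, g⁆⁻¹ * ⁅u, g⁆⁻¹ := by
    simp only [commutatorElement_def]
    group
  have eC : u * g * u⁻¹ = ⁅u, g⁆ * g := by
    rw [commutatorElement_def]; group
  rw [e0]
  generalize ⁅z, u⁆ = A at *
  generalize ⁅z, g⁆ = B at *
  generalize ⁅u, g⁆ = C at *
  have eD : u * B = ⁅u, B⁆ * B * u := by
    rw [commutatorElement_def]; group
  have eE : g * A⁻¹ * g⁻¹ = A⁻¹ * ⁅A, g⁆ := by
    rw [commutatorElement_def]; group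
  generalize ⁅u, B⁆ = D at *
  generalize ⁅A, g⁆ = E at *
  calc A * u * B * g * u⁻¹ * A⁻¹ * g⁻¹ * B⁻¹ * C⁻¹
      = A * (u * B) * g * u⁻¹ * A⁻¹ * g⁻¹ * B⁻¹ * C⁻¹ := by group
    _ = A * D * B * (u * g * u⁻¹) * A⁻¹ * g⁻¹ * B⁻¹ * C⁻¹ := by rw [eD]; group
    _ = D * (A * B * C) * (g * A⁻¹ * g⁻¹) * B⁻¹ * C⁻¹ := by rw [eC, ← hD A]; group
    _ = D * (A * B * C * A⁻¹) * (E * (B⁻¹ * C⁻¹)) := by rw [eE]; group
    _ = D * (A * B * C * A⁻¹ * B⁻¹ * C⁻¹) * E := by rw [hE]; group
    _ = D * E := by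
        rw [h1, mul_assoc B A C, h2, show B * (C * A) * A⁻¹ = B * C by group, h3]
        group
    _ = E * D := (hE D).symm

theorem jac_mod {t s r : ℕ} {z u g : G} (hz : z ∈ gam G t) (hu : u ∈ gam G s) (hg : g ∈ gam G r) :
    (⁅⁅z, u⁆, g⁆ * ⁅u, ⁅z, g⁆⁆)⁻¹ * ⁅z, ⁅u, g⁆⁆ ∈ gam G (t + s + r + 3) := by
  have hA := commutator_mem_gam' hz hu
  have hB := commutator_mem_gam' hz hg
  have hC := commutator_mem_gam' hu hg
  have hD := commutator_mem_gam' hu hB
  have hE := commutator_mem_gam' hA hg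
  rw [← QuotientGroup.eq]
  symm
  refine jacQ (Q := G ⧸ gam G (t + s + r + 3)) (QuotientGroup.mk z) (QuotientGroup.mk u)
    (QuotientGroup.mk g) ?_ ?_ ?_ ?_ ?_
  · exact qc hA hB (by omega)
  · exact qc hA hC (by omega)
  · exact qc hB hC (by omega)
  · intro x
    obtain ⟨x, rfl⟩ := QuotientGroup.mk_surjective x
    exact qc (j := 0) hD (Subgroup.mem_top x) (by omega)
  · intro x
    obtain ⟨x, rfl⟩ := QuotientGroup.mk_surjective x
    exact qc (j := 0) hE (Subgroup.mem_top x) (by omega)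

theorem brl_jac (x y z : GrL G) : brl x (brl y z) = brl (brl x y) z + brl y (brl x z) := by
  induction x using gr_ind with
  | h0 => simp
  | h1 i g hg =>
    induction y using gr_ind with
    | h0 => simp
    | h1 j h hh =>
      induction z using gr_ind with
      | h0 => simp
      | h1 l k hk =>
        rw [brl_hm, brl_hm, brl_hm, brl_hm, brl_hm, brl_hm]
        have h1 := jac_mod hg hh hk
        have m1 : ⁅⁅g, h⁆, k⁆ ∈ gam G (i + (j + l + 1) + 1) := by
          have := commutator_mem_gam' (commutator_mem_gam' hg hh) hk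
          rwa [show i + j + 1 + l + 1 = i + (j + l + 1) + 1 by omega] at this
        have m2 : ⁅h, ⁅g, k⁆⁆ ∈ gam G (i + (j + l + 1) + 1) := by
          have := commutator_mem_gam' hh (commutator_mem_gam' hg hk)
          rwa [show j + (i + l + 1) + 1 = i + (j + l + 1) + 1 by omega] at this
        have m3 := commutator_mem_gam' hg (commutator_mem_gam' hh hk)
        have e1 : hm (i + j + 1 + l + 1) ⁅⁅g, h⁆, k⁆ (commutator_mem_gam' (commutator_mem_gam' hg hh) hk) =
            hm (i + (j + l + 1) + 1) ⁅⁅g, h⁆, k⁆ m1 := hm_congr (by omega) rfl _ _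
        have e2 : hm (j + (i + l + 1) + 1) ⁅h, ⁅g, k⁆⁆ (commutator_mem_gam' hh (commutator_mem_gam' hg hk)) =
            hm (i + (j + l + 1) + 1) ⁅h, ⁅g, k⁆⁆ m2 := hm_congr (by omega) rfl _ _
        rw [e1, e2, ← hm_mul, ← sub_eq_zero, sub_eq_neg_add, ← hm_inv, ← hm_mul, hm_eq_zero]
        rw [show i + (j + l + 1) + 1 + 1 = i + j + l + 3 by omega]
        exact h1
      | h2 z z' h h' =>
        simp only [map_add, h, h']
        abel
    | h2 y y' h h' =>
      simp only [map_add, AddMonoidHom.add_apply, h, h']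
      abel
  | h2 x x' h h' =>
    simp only [map_add, AddMonoidHom.add_apply, h, h']
    abel

instance : LieRing (GrL G) where
  bracket x y := brl x y
  add_lie x y z := by
    change brl (x + y) z = brl x z + brl y z
    rw [map_add, AddMonoidHom.add_apply]
  lie_add x y z := map_add (brl x) y z
  lie_self x := brl_self x
  leibniz_lie x y z := brl_jac x y z

theorem lie_hm {i j : ℕ} {g h : G} (hg : g ∈ gam G i) (hh : h ∈ gam G j) :
    ⁅hm i g hg, hm j h hh⁆ = hm (i + j + 1) ⁅g, h⁆ (commutator_mem_gam' hg hh) := brl_hm hg hh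

end H82.S3
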