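import Pool.Agent.H82.S3.Mag
import Pool.Agent.H82.S3.Grl

/-!
# H82 S3 LEA: leading terms of the Magnus expansion

`star`: the leading term of `g ∈ gam n` is the combination of the `br w` which corresponds to the class of `g` in the graded Lie ring.
`lead`: if the leading term is divisible by `q` then `g ≡ h ^ q` modulo `gam (n + 1)`, `h ∈ gam n`. `f1`: powers.
-/

set_option autoImplicit false

open scoped Classical commutatorElement

noncomputable section

namespace H82.S3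

open H62.BL Pool.Agent.H61.Tu H88.S3

section pow

variable {G : Type} [Group G]

theorem mem0 (g : G) : g ∈ gam G 0 := Subgroup.mem_top g

theorem hm_zpow (n : ℕ) {g : G} (hg : g ∈ gam G n) (r : ℤ) : hm n (g ^ r) (zpow_mem hg r) = r • hm n g hg := by
  let f : Additive (gam G n) →+ GrL G := AddMonoidHom.mk' (fun x => hm n (x.toMul : G) x.toMul.2) fun x y => hm_mul n _ _
  have h1 := map_zsmul f r (Additive.ofMul (⟨g, hg⟩ : gam G n))
  exact h1

theorem hm_pow (n : ℕ) {g : G} (hg : g ∈ gam G n) (r : ℕ) : hm n (g ^ r) (pow_mem hg r) = r • hm n g hg := by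
  have h1 := hm_zpow n hg (r : ℤ)
  rw [natCast_zsmul] at h1
  rw [← h1]
  exact hm_congr rfl (zpow_natCast g r).symm _ _

end pow

section star

variable {α : Type}

theorem lp_zpow {n : ℕ} {g : FreeGroup α} (hg : g ∈ gam (FreeGroup α) n) (r : ℤ) : lp n (g ^ r) = r • lp n g := by
  let f : Additive (gam (FreeGroup α) n) →+ AW α ℤ :=
    AddMonoidHom.mk' (fun x => lp n (x.toMul : FreeGroup α)) fun x y => lp_mul x.toMul.2 y.toMul.2
  exact map_zsmul f r (Additive.ofMul (⟨g, hg⟩ : gam (FreeGroup α) n))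

/-- the classes of the letters -/
def fg (a : α) : GrL (FreeGroup α) := hm 0 (FreeGroup.of a) (Subgroup.mem_top _)

/-- the right normed commutator of a word `l a` -/
def rnw (l : List α) (a : α) : FreeGroup α := Pool.Agent.H61.Tu.rn (l.map FreeGroup.of) (FreeGroup.of a)

theorem rnw_cons (b : α) (l : List α) (a : α) : rnw (b :: l) a = ⁅FreeGroup.of b, rnw l a⁆ := rfl

theorem rnw_mem (l : List α) (a : α) : rnw l a ∈ gam (FreeGroup α) l.length := by
  have h1 := rn_mem (l.map FreeGroup.of) (mem0 (FreeGroup.of a))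
  rwa [Nat.zero_add, List.length_map] at h1

theorem rb_rnw (l : List α) (a : α) : rb fg (l ++ [a]) = hm l.length (rnw l a) (rnw_mem l a) := by
  induction l with
  | nil => rfl
  | cons b l ih =>
    rw [List.cons_append, rb_cons fg b (by simp), ih]
    unfold fg
    rw [lie_hm]
    exact hm_congr (by rw [List.length_cons]; omega) rfl _ _

theorem lp_rnw (l : List α) (a : α) : lp l.length (rnw l a) = (br (l ++ [a]) : List α → ℤ) := by
  induction l with
  | nil => exact lp_of a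
  | cons b l ih =>
    have h1 := lp_comm (mem0 (FreeGroup.of b)) (rnw_mem l a)
    rw [Nat.zero_add] at h1
    rw [List.length_cons, rnw_cons, h1, ih, lp_of, List.cons_append, br_cons b (by simp)]
    rfl

/-- an element is represented by a combination of words -/
def Rp (n : ℕ) (g : FreeGroup α) (c : List α →₀ ℤ) : Prop :=
  (∀ w ∈ c.support, w.length = n + 1) ∧ (∃ hg : g ∈ gam (FreeGroup α) n, RB ℤ fg c = hm n g hg) ∧
    Finsupp.linearCombination ℤ (br : List α → List α → ℤ) c = lp n g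

theorem rp_zero {n : ℕ} {g : FreeGroup α} (hg : g ∈ gam (FreeGroup α) (n + 1)) : Rp n g 0 :=
  ⟨by simp, ⟨gam_anti (by omega) hg, by rw [map_zero, (hm_eq_zero _).2 hg]⟩, by rw [map_zero, lp_zero hg]; rfl⟩

theorem rp_mul {n : ℕ} {g h : FreeGroup α} {c d : List α →₀ ℤ} (hc : Rp n g c) (hd : Rp n h d) : Rp n (g * h) (c + d) := by
  obtain ⟨c1, ⟨c2, c3⟩, c4⟩ := hc
  obtain ⟨d1, ⟨d2, d3⟩, d4⟩ := hd
  refine ⟨fun w hw => ?_, ⟨mul_mem c2 d2, ?_⟩, ?_⟩
  · rcases Finset.mem_union.1 (Finsupp.support_add hw) with h | h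
    · exact c1 w h
    · exact d1 w h
  · rw [map_add, c3, d3, hm_mul]
  · rw [map_add, c4, d4, lp_mul c2 d2]
    rfl

theorem rp_zpow {n : ℕ} {g : FreeGroup α} {c : List α →₀ ℤ} (hc : Rp n g c) (r : ℤ) : Rp n (g ^ r) (r • c) := by
  obtain ⟨c1, ⟨c2, c3⟩, c4⟩ := hc
  refine ⟨fun w hw => c1 w (Finsupp.support_smul hw), ⟨zpow_mem c2 r, ?_⟩, ?_⟩
  · rw [map_smul, c3, hm_zpow]
  · rw [map_smul, c4, lp_zpow c2]
    rfl

theorem rp_single (l : List α) (a : α) : Rp l.length (rnw l a) (Finsupp.single (l ++ [a]) 1) := by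
  refine ⟨fun w hw => ?_, ⟨rnw_mem l a, ?_⟩, ?_⟩
  · rw [Finset.mem_singleton.1 (Finsupp.support_single_subset hw), List.length_append]; rfl
  · rw [RB_single, one_smul, rb_rnw]
  · rw [Finsupp.linearCombination_single, one_smul, lp_rnw]

theorem star {n : ℕ} {g : FreeGroup α} (hg : g ∈ gam (FreeGroup α) n) : ∃ c, Rp n g c := by
  have hA : Subgroup.closure (Set.range (FreeGroup.of : α → FreeGroup α)) = ⊤ := FreeGroup.closure_range_of α
  have h1 := gam_le_closure_rn (Set.range (FreeGroup.of : α → FreeGroup α)) hA n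
  set S := {g : FreeGroup α | ∃ (l : List (FreeGroup α)) (a : FreeGroup α), l.length = n ∧
    (∀ x ∈ l, x ∈ Set.range (FreeGroup.of : α → FreeGroup α)) ∧ a ∈ Set.range (FreeGroup.of : α → FreeGroup α) ∧
    g = Pool.Agent.H61.Tu.rn l a} with hS
  have h2 : g ∈ Subgroup.closure (S ∪ (gam (FreeGroup α) (n + 1) : Set (FreeGroup α))) := by
    rw [Subgroup.closure_union, Subgroup.closure_eq]
    exact h1 hg
  clear h1 hg
  induction h2 using Subgroup.closure_induction with
  | mem x hx =>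
    rcases hx with hx | hx
    · obtain ⟨l, a, hl, hl', ⟨a, rfl⟩, rfl⟩ := hx
      obtain ⟨l, rfl⟩ : ∃ l' : List α, l'.map FreeGroup.of = l := by
        clear hl
        induction l with
        | nil => exact ⟨[], rfl⟩
        | cons x l ih =>
          obtain ⟨l', hl''⟩ := ih fun y hy => hl' y (List.mem_cons_of_mem _ hy)
          obtain ⟨b, hb⟩ := hl' x (by simp)
          exact ⟨b :: l', by rw [List.map_cons, hb, hl'']⟩
      rw [List.length_map] at hl
      subst hl
      exact ⟨_, rp_single l a⟩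
    · exact ⟨0, rp_zero hx⟩
  | one => exact ⟨0, rp_zero (one_mem _)⟩
  | mul x y _ _ hx hy =>
    obtain ⟨c, hc⟩ := hx
    obtain ⟨d, hd⟩ := hy
    exact ⟨_, rp_mul hc hd⟩
  | inv x _ hx =>
    obtain ⟨c, hc⟩ := hx
    have := rp_zpow hc (-1)
    rw [zpow_neg_one] at this
    exact ⟨_, this⟩

theorem star' (n : ℕ) (c : List α →₀ ℤ) : ∃ g, Rp n g (c.filter fun w => w.length = n + 1) := by
  induction c using Finsupp.induction_linear with
  | zero => exact ⟨1, by rw [Finsupp.filter_zero]; exact rp_zero (one_mem _)⟩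
  | add c d hc hd =>
    obtain ⟨g, hg⟩ := hc
    obtain ⟨h, hh⟩ := hd
    exact ⟨g * h, by rw [Finsupp.filter_add]; exact rp_mul hg hh⟩
  | single w r =>
    by_cases hw : w.length = n + 1
    · rw [Finsupp.filter_single_of_pos (fun w : List α => w.length = n + 1) hw]
      have hw0 : w ≠ [] := by rintro rfl; simp at hw
      obtain ⟨l, a, rfl⟩ : ∃ l a, w = l ++ [a] := ⟨_, _, (List.dropLast_append_getLast hw0).symm⟩
      have hl : l.length = n := by rw [List.length_append, List.length_singleton] at hw; omega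
      subst hl
      have := rp_zpow (rp_single l a) r
      rw [Finsupp.smul_single, smul_eq_mul, mul_one] at this
      exact ⟨_, this⟩
    · rw [Finsupp.filter_single_of_neg (fun w : List α => w.length = n + 1) hw]
      exact ⟨1, rp_zero (one_mem _)⟩

theorem star'' {n : ℕ} {c : List α →₀ ℤ} (hc : ∀ w ∈ c.support, w.length = n + 1) : ∃ g, Rp n g c := by
  obtain ⟨g, hg⟩ := star' n c
  rw [(Finsupp.filter_eq_self_iff _ _).2 fun w hw => hc w (Finsupp.mem_support_iff.2 hw)] at hg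
  exact ⟨g, hg⟩

theorem lp_ll {n : ℕ} {g : FreeGroup α} (hg : g ∈ gam (FreeGroup α) n) : lp n g ∈ LL ℤ α (n + 1) := by
  obtain ⟨c, h1, -, h3⟩ := star hg
  rw [← h3, Finsupp.linearCombination_apply]
  exact Submodule.sum_mem _ fun w hw => Submodule.smul_mem _ _ (ll_mem (h1 w hw))

theorem ll_lp {n : ℕ} {x : AW α ℤ} (hx : x ∈ LL ℤ α (n + 1)) : ∃ g ∈ gam (FreeGroup α) n, lp n g = x := by
  obtain ⟨c, h1, h2⟩ := ll_comb hx
  obtain ⟨g, -, ⟨h3, -⟩, h4⟩ := star'' h1
  exact ⟨g, h3, by rw [← h4, h2]⟩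

/-- leading terms divisible by `q` -/
theorem lead {n : ℕ} {g : FreeGroup α} (hg : g ∈ gam (FreeGroup α) n) (q : ℕ) (hq : ∀ w, (q : ℤ) ∣ lp n g w) :
    ∃ h ∈ gam (FreeGroup α) n, g⁻¹ * h ^ q ∈ gam (FreeGroup α) (n + 1) := by
  obtain ⟨y, hy, hxy⟩ := sat q (n + 1) (lp n g) (lp_ll hg) hq
  obtain ⟨c, c1, ⟨c2, c3⟩, c4⟩ := star hg
  obtain ⟨d, d1, d2⟩ := ll_comb hy
  obtain ⟨h, -, ⟨h2, h3⟩, h4⟩ := star'' d1
  refine ⟨h, h2, ?_⟩
  have e1 : Finsupp.linearCombination ℤ (br : List α → List α → ℤ) (c - (q : ℤ) • d) = 0 := by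
    rw [map_sub, map_smul, c4, d2, hxy, sub_self]
  have e2 := laz_br (R := ℤ) _ e1 (fg : α → GrL (FreeGroup α))
  rw [map_sub, map_smul, c3, h3, natCast_zsmul, ← hm_pow] at e2
  have h5 : hm n (g⁻¹ * h ^ q) (mul_mem (inv_mem hg) (pow_mem h2 q)) = 0 := by
    rw [hm_mul n (inv_mem hg) (pow_mem h2 q), hm_inv n hg, neg_add_eq_zero]
    exact sub_eq_zero.1 e2
  exact (hm_eq_zero _).1 h5

end star

section powers

variable {α : Type}

variable (α) in
/-- functions with divisible coefficients -/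
def Dv (d : ℕ → ℤ) (e : ℕ) : AddSubgroup (AW α ℤ) where
  carrier := {x | ∀ w : List α, w.length ≤ e → d w.length ∣ x w}
  zero_mem' _ _ := dvd_zero _
  add_mem' hx hy w hw := dvd_add (hx w hw) (hy w hw)
  neg_mem' hx w hw := (dvd_neg).2 (hx w hw)

theorem dv_iff {d : ℕ → ℤ} {e : ℕ} {x : AW α ℤ} : x ∈ Dv α d e ↔ ∀ w : List α, w.length ≤ e → d w.length ∣ x w := Iff.rfl

theorem dv_mul_left {d : ℕ → ℤ} {e : ℕ} (hd : ∀ n m, n ≤ m → m ≤ e → d m ∣ d n) {x : AW α ℤ} (hx : x ∈ Dv α d e) (y : AW α ℤ) :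
    x * y ∈ Dv α d e := by
  intro w hw
  rw [aw_sum]
  refine Finset.dvd_sum fun k hk => ?_
  refine dvd_mul_of_dvd_left ?_ _
  have h1 : (w.take k).length ≤ w.length := by rw [List.length_take]; omega
  exact (hd _ _ h1 hw).trans (hx _ (by omega))

theorem dv_mul_right {d : ℕ → ℤ} {e : ℕ} (hd : ∀ n m, n ≤ m → m ≤ e → d m ∣ d n) {x : AW α ℤ} (hx : x ∈ Dv α d e) (y : AW α ℤ) :
    y * x ∈ Dv α d e := by
  intro w hw
  rw [aw_sum]
  refine Finset.dvd_sum fun k hk => ?_
  refine dvd_mul_of_dvd_right ?_ _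
  have h1 : (w.drop k).length ≤ w.length := by rw [List.length_drop]; omega
  exact (hd _ _ h1 hw).trans (hx _ (by omega))

/-- the precision in degree `n` -/
def dm (p : ℕ) (M : ℕ → ℕ) (n : ℕ) : ℤ := if n = 0 then 0 else (p : ℤ) ^ M n

theorem dm_pos {p : ℕ} {M : ℕ → ℕ} {n : ℕ} (h : n ≠ 0) : dm p M n = (p : ℤ) ^ M n := if_neg h

/-- the gaps of the precisions -/
def MOk (c : ℕ) (M : ℕ → ℕ) : Prop := ∀ e, 1 ≤ e → e < c → M (e + 1) + c ≤ M e

theorem mok_le {c : ℕ} {M : ℕ → ℕ} (h : MOk c M) {n m : ℕ} (hn : 1 ≤ n) (hnm : n ≤ m) (hm : m ≤ c) : M m ≤ M n := by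
  induction m, hnm using Nat.le_induction with
  | base => exact le_rfl
  | succ m hm' ih =>
    have h1 := h m (by omega) (by omega)
    have h2 := ih (by omega)
    omega

theorem mok_lt {c : ℕ} {M : ℕ → ℕ} (h : MOk c M) {n m : ℕ} (hn : 1 ≤ n) (hnm : n < m) (hm : m ≤ c) : M m + c ≤ M n := by
  have h1 := mok_le h (n := n + 1) (m := m) (by omega) (by omega) hm
  have h2 := h n hn (by omega)
  omega

theorem dm_dvd {p c : ℕ} {M : ℕ → ℕ} (h : MOk c M) (n m : ℕ) (hnm : n ≤ m) (hm : m ≤ c) : dm p M m ∣ dm p M n := by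
  rcases Nat.eq_zero_or_pos n with h0 | h0
  · subst h0
    exact dvd_zero _
  · rw [dm_pos (by omega), dm_pos (by omega)]
    exact pow_dvd_pow _ (mok_le h h0 hnm hm)

/-- binomial coefficients -/
theorem chp {p : ℕ} (hp : p.Prime) {m j r : ℕ} (hj : j ≠ 0) (h : r + (j - 1) ≤ m) : p ^ r ∣ (p ^ m).choose j := by
  rcases Nat.lt_or_ge (p ^ m) j with h1 | h1
  · rw [Nat.choose_eq_zero_of_lt h1]
    exact dvd_zero _
  · rw [hp.pow_dvd_iff_le_factorization (Nat.choose_pos h1).ne', Nat.factorization_choose_prime_pow hp h1 hj]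
    have h2 := Nat.factorization_lt p hj
    omega

theorem pow_zd {i : ℕ} {a : AW α ℤ} (ha : a ∈ Zd α ℤ i) (k : ℕ) : a ^ (k + 1) ∈ Zd α ℤ ((k + 1) * (i + 1) - 1) := by
  induction k with
  | zero => rw [Nat.zero_add, pow_one, one_mul, Nat.add_sub_cancel]; exact ha
  | succ k ih =>
    rw [pow_succ]
    have h1 := zd_mul ih ha
    have h2 : (k + 1) * (i + 1) - 1 + i + 1 = (k + 1 + 1) * (i + 1) - 1 := by
      have : 1 ≤ (k + 1) * (i + 1) := Nat.succ_le_of_lt (by positivity)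
      have h3 : (k + 1 + 1) * (i + 1) = (k + 1) * (i + 1) + (i + 1) := by ring
      omega
    rwa [h2] at h1

/-- powers of the elements of degree `i + 1` -/
theorem f1 {p c : ℕ} (hp : p.Prime) {M : ℕ → ℕ} (hM : MOk c M) {i : ℕ} {a : AW α ℤ} (ha : a ∈ Zd α ℤ i) :
    (1 + a) ^ (p ^ M (i + 1)) - 1 ∈ Dv α (dm p M) c := by
  rw [add_comm, (Commute.one_right a).add_pow, Finset.sum_range_succ', pow_zero, one_mul, one_pow, one_mul,
    Nat.choose_zero_right, Nat.cast_one, add_sub_cancel_right]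
  refine sum_mem fun k hk => ?_
  rw [one_pow, mul_one]
  intro w hw
  have h1 : (a ^ (k + 1) * (((p ^ M (i + 1)).choose (k + 1) : ℕ) : AW α ℤ)) w =
      (a ^ (k + 1)) w * ((p ^ M (i + 1)).choose (k + 1) : ℕ) := by
    rw [← nsmul_eq_mul', mul_comm, ← nsmul_eq_mul]
    rfl
  rw [h1]
  by_cases h2 : w.length ≤ (k + 1) * (i + 1) - 1
  · rw [pow_zd ha k w h2, zero_mul]
    exact dvd_zero _
  · have h3 : (k + 1) * (i + 1) ≤ w.length := by omega
    have h4 : 1 ≤ (k + 1) * (i + 1) := Nat.succ_le_of_lt (by positivity)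
    rw [dm_pos (by omega)]
    refine dvd_mul_of_dvd_right ?_ _
    have h5 : p ^ M w.length ∣ (p ^ M (i + 1)).choose (k + 1) := by
      refine chp hp (by omega) ?_
      have h6 : k + 1 ≤ (k + 1) * (i + 1) := Nat.le_mul_of_pos_right _ (by omega)
      rcases Nat.eq_zero_or_pos k with h7 | h7
      · subst h7
        rw [Nat.zero_add, one_mul] at h3
        have := mok_le hM (n := i + 1) (m := w.length) (by omega) h3 hw
        omega
      · have h8 : i + 1 < (k + 1) * (i + 1) := by nlinarith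
        have := mok_lt hM (n := i + 1) (m := w.length) (by omega) (by omega) hw
        omega
    exact_mod_cast Int.natCast_dvd_natCast.2 h5

end powers

end H82.S3
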