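import Pool.Agent.H82.S3.Lea

/-!
# H82 S3 SP: the group `S'` of stage 3

`Sp P α`: the relatively free group of class `P.c` on the letters `α` with precision `p ^ P.M (n + 1)` on `gam n`. `dg n x`: the leading part of
`x ∈ gam n`, in `LL (ZMod (p ^ M (n + 1))) α (n + 1)`; `dg n` is onto, its kernel is `gam (n + 1)`. `lft`: the universal property.
-/

set_option autoImplicit false

open scoped Classical commutatorElement

noncomputable section

namespace H82.S3

open H62.BL Pool.Agent.H61.Tu H88.S3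

/-- the parameters -/
structure Par where
  p : ℕ
  c : ℕ
  M : ℕ → ℕ
  hp : p.Prime
  hc : 1 ≤ c
  ok : MOk c M

namespace Par

variable (P : Par)

/-- the precision in degree `n + 1` -/
def q (n : ℕ) : ℕ := P.p ^ P.M (n + 1)

theorem q_pos (n : ℕ) : 0 < P.q n := pow_pos P.hp.pos _

instance (n : ℕ) : NeZero (P.q n) := ⟨(P.q_pos n).ne'⟩

theorem q_dvd {i j : ℕ} (h : i ≤ j) (hj : j + 1 ≤ P.c) : P.q j ∣ P.q i :=
  pow_dvd_pow _ (mok_le P.ok (by omega) (by omega) hj)

theorem dm_q (n : ℕ) : dm P.p P.M (n + 1) = (P.q n : ℤ) := by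
  rw [dm_pos (by omega), q]
  push_cast
  rfl

end Par

section KK

variable (P : Par) (α : Type)

/-- the relations -/
def KK : Subgroup (FreeGroup α) where
  carrier := {g | mu g - 1 ∈ Dv α (dm P.p P.M) P.c}
  one_mem' := by
    change mu 1 - 1 ∈ Dv α (dm P.p P.M) P.c
    rw [mu_one, sub_self]
    exact zero_mem _
  mul_mem' {g h} hg hh := by
    change mu (g * h) - 1 ∈ Dv α (dm P.p P.M) P.c
    have h1 : mu (g * h) - 1 = (mu g - 1) * mu h + (mu h - 1) := by rw [mu_mul]; noncomm_ring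
    rw [h1]
    exact add_mem (dv_mul_left (dm_dvd P.ok) hg _) hh
  inv_mem' {g} hg := by
    change mu g⁻¹ - 1 ∈ Dv α (dm P.p P.M) P.c
    have h1 : mu g⁻¹ - 1 = - ((mu g - 1) * mu g⁻¹) := by rw [sub_mul, mu_inv, one_mul, neg_sub]
    rw [h1]
    exact neg_mem (dv_mul_left (dm_dvd P.ok) hg _)

theorem kk_iff {g : FreeGroup α} : g ∈ KK P α ↔ mu g - 1 ∈ Dv α (dm P.p P.M) P.c := Iff.rfl

instance kk_nrm : (KK P α).Normal := ⟨fun g hg h => by
  rw [kk_iff] at hg ⊢
  have h1 : mu (h * g * h⁻¹) - 1 = mu h * (mu g - 1) * mu h⁻¹ := by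
    rw [mul_sub, sub_mul, mul_one, mu_inv, mu_mul, mu_mul]
  rw [h1]
  exact dv_mul_left (dm_dvd P.ok) (dv_mul_right (dm_dvd P.ok) hg _) _⟩

theorem gam_kk : gam (FreeGroup α) P.c ≤ KK P α := by
  intro g hg
  rw [kk_iff]
  intro w hw
  rw [mu_gam hg w hw]
  exact dvd_zero _

theorem pow_kk {n : ℕ} {g : FreeGroup α} (hg : g ∈ gam (FreeGroup α) n) : g ^ P.q n ∈ KK P α := by
  rw [kk_iff, mu_pow]
  have h1 := f1 (α := α) P.hp P.ok (mu_gam hg)
  rwa [add_sub_cancel] at h1

/-- the relations are the laws -/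
theorem kk_le (N : Subgroup (FreeGroup α)) (h1 : gam (FreeGroup α) P.c ≤ N)
    (h2 : ∀ n, n + 1 ≤ P.c → ∀ x ∈ gam (FreeGroup α) n, x ^ P.q n ∈ N) : KK P α ≤ N := by
  intro g hg
  have h3 : ∀ e ≤ P.c, ∃ x ∈ N, x ∈ KK P α ∧ x⁻¹ * g ∈ gam (FreeGroup α) e := by
    intro e
    induction e with
    | zero => exact fun _ => ⟨1, one_mem _, one_mem _, mem0 _⟩
    | succ e ih =>
      intro he
      obtain ⟨x, hx, hx', hxg⟩ := ih (by omega)
      have h4 : x⁻¹ * g ∈ KK P α := mul_mem (inv_mem hx') hg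
      obtain ⟨k, hk, hk'⟩ := lead hxg (P.q e) fun w => by
        unfold lp
        rw [pa_apply]
        by_cases hw : w.length = e + 1
        · rw [if_pos hw, ← P.dm_q, ← hw]
          exact h4 w (by omega)
        · rw [if_neg hw]
          exact dvd_zero _
      refine ⟨x * k ^ P.q e, mul_mem hx (h2 e he k hk), mul_mem hx' (pow_kk P α hk), ?_⟩
      have h5 : (x * k ^ P.q e)⁻¹ * g = ((x⁻¹ * g)⁻¹ * k ^ P.q e)⁻¹ := by group
      rw [h5]
      exact inv_mem hk'
  obtain ⟨x, hx, -, hxg⟩ := h3 P.c le_rfl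
  have h4 : g = x * (x⁻¹ * g) := by group
  rw [h4]
  exact mul_mem hx (h1 hxg)

end KK

section Sp

variable (P : Par) (α : Type)

/-- the group `S'` -/
def Sp : Type := FreeGroup α ⧸ KK P α

instance : Group (Sp P α) := inferInstanceAs (Group (FreeGroup α ⧸ KK P α))

variable {α}

/-- the class of a word -/
def smk : FreeGroup α →* Sp P α := QuotientGroup.mk' (KK P α)

theorem smk_surj : Function.Surjective (smk P : FreeGroup α →* Sp P α) := QuotientGroup.mk'_surjective _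

theorem smk_eq_one {g : FreeGroup α} : smk P g = 1 ↔ g ∈ KK P α := QuotientGroup.eq_one_iff g

theorem smk_eq {g h : FreeGroup α} : smk P g = smk P h ↔ mu g - mu h ∈ Dv α (dm P.p P.M) P.c := by
  rw [← mul_inv_eq_one, ← map_inv, ← map_mul, smk_eq_one, kk_iff]
  have h1 : mu (g * h⁻¹) - 1 = (mu g - mu h) * mu h⁻¹ := by rw [sub_mul, mu_inv, mu_mul]
  have h2 : mu g - mu h = (mu (g * h⁻¹) - 1) * mu h := by
    rw [h1, mul_assoc, mu_inv', mul_one]
  constructor
  · intro h
    rw [h2]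
    exact dv_mul_left (dm_dvd P.ok) h _
  · intro h
    rw [h1]
    exact dv_mul_left (dm_dvd P.ok) h _

/-- the letters -/
def sy (a : α) : Sp P α := smk P (FreeGroup.of a)

theorem sy_gen : Subgroup.closure (Set.range (sy P : α → Sp P α)) = ⊤ := by
  have h1 : Set.range (sy P : α → Sp P α) = (smk P : FreeGroup α →* Sp P α) '' Set.range FreeGroup.of := by
    rw [← Set.range_comp]; rfl
  rw [h1, ← MonoidHom.map_closure, FreeGroup.closure_range_of]
  exact Subgroup.map_top_of_surjective _ (smk_surj P)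

theorem gam_mem {n : ℕ} {x : Sp P α} : x ∈ gam (Sp P α) n ↔ ∃ g ∈ gam (FreeGroup α) n, smk P g = x := by
  have h1 : (gam (FreeGroup α) n).map (smk P : FreeGroup α →* Sp P α) = gam (Sp P α) n := by
    rw [Subgroup.map_lowerCentralSeries, Subgroup.map_top_of_surjective _ (smk_surj P)]
  rw [← h1, Subgroup.mem_map]

theorem gam_c : gam (Sp P α) P.c = ⊥ := by
  rw [eq_bot_iff]
  intro x hx
  obtain ⟨g, hg, rfl⟩ := (gam_mem P).1 hx
  rw [Subgroup.mem_bot, smk_eq_one]
  exact gam_kk P α hg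

theorem gam_pow {n : ℕ} {x : Sp P α} (hx : x ∈ gam (Sp P α) n) : x ^ P.q n = 1 := by
  obtain ⟨g, hg, rfl⟩ := (gam_mem P).1 hx
  rw [← map_pow, smk_eq_one]
  exact pow_kk P α hg

theorem sp_pow (x : Sp P α) : x ^ P.q 0 = 1 := gam_pow P (mem0 x)

theorem sp_pgroup : IsPGroup P.p (Sp P α) := fun x => ⟨P.M 1, sp_pow P x⟩

/-- the universal property -/
theorem lft_exists {T : Type} [Group T] (h1 : gam T P.c = ⊥) (h2 : ∀ n, n + 1 ≤ P.c → ∀ t ∈ gam T n, t ^ P.q n = 1)
    (s : α → T) : ∃ f : Sp P α →* T, ∀ a, f (sy P a) = s a := by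
  have h3 : KK P α ≤ (FreeGroup.lift s).ker := by
    refine kk_le P α _ ?_ ?_
    · intro g hg
      have := gam_map (FreeGroup.lift s) P.c hg
      rw [h1, Subgroup.mem_bot] at this
      exact this
    · intro n hn x hx
      rw [MonoidHom.mem_ker, map_pow]
      exact h2 n hn _ (gam_map (FreeGroup.lift s) n hx)
  refine ⟨QuotientGroup.lift (KK P α) (FreeGroup.lift s) h3, fun a => ?_⟩
  exact (QuotientGroup.lift_mk' (KK P α) h3 (FreeGroup.of a)).trans (FreeGroup.lift_apply_of)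

theorem sp_hom_ext {T : Type} [Group T] (f g : Sp P α →* T) (h : ∀ a, f (sy P a) = g (sy P a)) : f = g := by
  refine QuotientGroup.monoidHom_ext (KK P α) (FreeGroup.ext_hom _ _ fun a => ?_)
  exact h a

theorem lft_exists' {T : Type} [Group T] (h1 : gam T P.c = ⊥) (h2 : ∀ t : T, t ^ (P.p ^ P.M P.c) = 1)
    (s : α → T) : ∃ f : Sp P α →* T, ∀ a, f (sy P a) = s a := by
  refine lft_exists P h1 (fun n hn t _ => ?_) s
  obtain ⟨k, hk⟩ : P.p ^ P.M P.c ∣ P.q n := pow_dvd_pow _ (mok_le P.ok (by omega) hn le_rfl)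
  rw [hk, pow_mul, h2, one_pow]

instance sp_finite [Finite α] : Finite (Sp P α) := by
  have hf : Finite {w : List α // w.length ≤ P.c} := (List.finite_length_le α P.c).to_subtype
  have hz : ∀ w : {w : List α // w.length ≤ P.c}, Finite (ZMod (P.p ^ P.M w.1.length)) := fun w => by
    have : NeZero (P.p ^ P.M w.1.length) := ⟨(pow_pos P.hp.pos _).ne'⟩
    infer_instance
  refine Finite.of_injective (β := (w : {w : List α // w.length ≤ P.c}) → ZMod (P.p ^ P.M w.1.length))
    (fun x w => ((mu (Function.surjInv (smk_surj P) x) w.1 : ℤ) : ZMod _)) fun x y hxy => ?_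
  rw [← Function.surjInv_eq (smk_surj P) x, ← Function.surjInv_eq (smk_surj P) y, smk_eq]
  intro w hw
  have h1 := congrFun hxy ⟨w, hw⟩
  rcases Nat.eq_zero_or_pos w.length with h0 | h0
  · have h2 : w = [] := List.length_eq_zero_iff.1 h0
    subst h2
    rw [aw_sub, mu_nil, mu_nil, sub_self]
    exact dvd_zero _
  · rw [dm_pos (by omega), aw_sub]
    have h3 := (ZMod.intCast_eq_intCast_iff_dvd_sub _ _ _).1 h1.symm
    push_cast at h3
    exact h3

end Sp

section dg

variable (P : Par) {α : Type}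

/-- reduction of the coefficients -/
def rd (q : ℕ) : AW α ℤ →+* AW α (ZMod q) where
  toFun x := fun w => ((x w : ℤ) : ZMod q)
  map_one' := by
    ext w
    change ((if w = [] then (1 : ℤ) else 0 : ℤ) : ZMod q) = if w = [] then 1 else 0
    split_ifs
    · exact Int.cast_one
    · exact Int.cast_zero
  map_mul' x y := by
    ext w
    exact cv_map (Int.castRingHom (ZMod q)) x y w
  map_zero' := by ext w; exact Int.cast_zero
  map_add' x y := by ext w; exact Int.cast_add _ _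

theorem rd_apply (q : ℕ) (x : AW α ℤ) (w : List α) : rd q x w = ((x w : ℤ) : ZMod q) := rfl

theorem rd_eq_zero {q : ℕ} {x : AW α ℤ} : rd q x = 0 ↔ ∀ w, (q : ℤ) ∣ x w := by
  constructor
  · intro h w
    have h1 : ((x w : ℤ) : ZMod q) = 0 := congrFun h w
    exact (ZMod.intCast_zmod_eq_zero_iff_dvd _ _).1 h1
  · intro h
    ext w
    exact (ZMod.intCast_zmod_eq_zero_iff_dvd _ _).2 (h w)

/-- the leading part of an element of `gam n` -/
def dg (n : ℕ) (x : Sp P α) : AW α (ZMod (P.q n)) := rd (P.q n) (lp n (Function.surjInv (smk_surj P) x))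

theorem dg_mk {n : ℕ} (hn : n + 1 ≤ P.c) (g : FreeGroup α) : dg P n (smk P g) = rd (P.q n) (lp n g) := by
  unfold dg
  have h1 := Function.surjInv_eq (smk_surj P) (smk P g)
  rw [smk_eq] at h1
  rw [← sub_eq_zero, ← map_sub, rd_eq_zero]
  intro w
  unfold lp
  rw [← map_sub, pa_apply]
  by_cases hw : w.length = n + 1
  · rw [if_pos hw, ← P.dm_q, ← hw, sub_sub_sub_cancel_right]
    exact h1 w (by omega)
  · rw [if_neg hw]
    exact dvd_zero _

theorem dg_mul {n : ℕ} (hn : n + 1 ≤ P.c) {x y : Sp P α} (hx : x ∈ gam (Sp P α) n) (hy : y ∈ gam (Sp P α) n) :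
    dg P n (x * y) = dg P n x + dg P n y := by
  obtain ⟨g, hg, rfl⟩ := (gam_mem P).1 hx
  obtain ⟨h, hh, rfl⟩ := (gam_mem P).1 hy
  rw [← map_mul, dg_mk P hn, dg_mk P hn, dg_mk P hn, lp_mul hg hh, map_add]

theorem dg_one {n : ℕ} (hn : n + 1 ≤ P.c) : dg P n (1 : Sp P α) = 0 := by
  rw [← map_one (smk P), dg_mk P hn, lp_one, map_zero]

theorem dg_eq_zero {n : ℕ} (hn : n + 1 ≤ P.c) {x : Sp P α} (hx : x ∈ gam (Sp P α) n) :
    dg P n x = 0 ↔ x ∈ gam (Sp P α) (n + 1) := by
  obtain ⟨g, hg, rfl⟩ := (gam_mem P).1 hx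
  rw [dg_mk P hn, rd_eq_zero]
  constructor
  · intro h
    obtain ⟨k, hk, hk'⟩ := lead hg (P.q n) h
    have h1 : g = k ^ P.q n * (g⁻¹ * k ^ P.q n)⁻¹ := by group
    rw [gam_mem]
    refine ⟨(g⁻¹ * k ^ P.q n)⁻¹, inv_mem hk', ?_⟩
    conv_rhs => rw [h1]
    rw [map_mul, (smk_eq_one P).2 (pow_kk P α hk), one_mul]
  · intro h
    obtain ⟨k, hk, hk'⟩ := (gam_mem P).1 h
    have h1 := dg_mk P hn g
    rw [← hk', dg_mk P hn, lp_zero hk, map_zero] at h1
    exact rd_eq_zero.1 h1.symm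

/-- reduction of Lie elements -/
theorem rd_br (q : ℕ) (w : List α) : rd q (br w : List α → ℤ) = (br w : List α → ZMod q) :=
  funext fun v => br_map (Int.castRingHom (ZMod q)) w v

theorem rd_smul (q : ℕ) (r : ℤ) (x : AW α ℤ) : rd q (r • x) = (r : ZMod q) • rd q x :=
  funext fun _ => Int.cast_mul _ _

theorem rd_ll' {q d : ℕ} {x : List α → ℤ} (hx : x ∈ LL ℤ α d) :
    (fun w => ((x w : ℤ) : ZMod q) : List α → ZMod q) ∈ LL (ZMod q) α d := by
  induction hx using Submodule.span_induction with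
  | mem x hx =>
    obtain ⟨w, hw, rfl⟩ := hx
    have := ll_mem (R := ZMod q) hw
    rw [← rd_br] at this
    exact this
  | zero =>
    have h1 : (fun w => (((0 : List α → ℤ) w : ℤ) : ZMod q) : List α → ZMod q) = 0 := funext fun w => Int.cast_zero
    rw [h1]
    exact Submodule.zero_mem _
  | add a b _ _ ha hb =>
    have h1 : (fun w => (((a + b : List α → ℤ) w : ℤ) : ZMod q) : List α → ZMod q) =
      (fun w => ((a w : ℤ) : ZMod q)) + fun w => ((b w : ℤ) : ZMod q) := funext fun w => Int.cast_add _ _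
    rw [h1]
    exact Submodule.add_mem _ ha hb
  | smul r a _ ha =>
    have h1 : (fun w => (((r • a : List α → ℤ) w : ℤ) : ZMod q) : List α → ZMod q) =
      (r : ZMod q) • fun w => ((a w : ℤ) : ZMod q) := funext fun w => Int.cast_mul _ _
    rw [h1]
    exact Submodule.smul_mem _ _ ha

theorem rd_ll {q d : ℕ} {x : AW α ℤ} (hx : x ∈ LL ℤ α d) : rd q x ∈ LL (ZMod q) α d := rd_ll' hx

theorem ll_rd {q d : ℕ} {y : List α → ZMod q} (hy : y ∈ LL (ZMod q) α d) : ∃ x : AW α ℤ, x ∈ LL ℤ α d ∧ rd q x = y := by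
  induction hy using Submodule.span_induction with
  | mem y hy =>
    obtain ⟨w, hw, rfl⟩ := hy
    exact ⟨br w, ll_mem hw, rd_br q w⟩
  | zero => exact ⟨0, Submodule.zero_mem _, map_zero _⟩
  | add a b _ _ ha hb =>
    obtain ⟨x, hx, hx'⟩ := ha
    obtain ⟨y, hy, hy'⟩ := hb
    refine ⟨x + y, Submodule.add_mem _ hx hy, ?_⟩
    rw [map_add, hx', hy']
    rfl
  | smul r a _ ha =>
    obtain ⟨x, hx, hx'⟩ := ha
    obtain ⟨r, rfl⟩ := ZMod.intCast_surjective r
    exact ⟨r • x, Submodule.smul_mem _ r hx, by rw [rd_smul, hx']; rfl⟩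

theorem dg_ll {n : ℕ} (hn : n + 1 ≤ P.c) {x : Sp P α} (hx : x ∈ gam (Sp P α) n) : dg P n x ∈ LL (ZMod (P.q n)) α (n + 1) := by
  obtain ⟨g, hg, rfl⟩ := (gam_mem P).1 hx
  rw [dg_mk P hn]
  exact rd_ll (lp_ll hg)

theorem dg_surj {n : ℕ} (hn : n + 1 ≤ P.c) {y : List α → ZMod (P.q n)} (hy : y ∈ LL (ZMod (P.q n)) α (n + 1)) :
    ∃ x ∈ gam (Sp P α) n, dg P n x = y := by
  obtain ⟨z, hz, rfl⟩ := ll_rd hy
  obtain ⟨g, hg, rfl⟩ := ll_lp hz
  exact ⟨smk P g, (gam_mem P).2 ⟨g, hg, rfl⟩, dg_mk P hn g⟩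

/-- change of the precision -/
def rc {q q' : ℕ} (h : q' ∣ q) : AW α (ZMod q) →+* AW α (ZMod q') where
  toFun x := fun w => ZMod.castHom h (ZMod q') (x w)
  map_one' := by
    ext w
    change ZMod.castHom h (ZMod q') (if w = [] then 1 else 0) = if w = [] then 1 else 0
    split_ifs
    · exact map_one _
    · exact map_zero _
  map_mul' x y := by
    ext w
    exact cv_map (ZMod.castHom h (ZMod q')) x y w
  map_zero' := by ext w; exact map_zero _
  map_add' x y := by ext w; exact map_add _ _ _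

theorem rc_rd {q q' : ℕ} (h : q' ∣ q) (x : AW α ℤ) : rc h (rd q x) = rd q' x := by
  ext w
  exact map_intCast (ZMod.castHom h (ZMod q')) (x w)

theorem dg_comm {i j : ℕ} (hn : i + j + 2 ≤ P.c) {x y : Sp P α} (hx : x ∈ gam (Sp P α) i) (hy : y ∈ gam (Sp P α) j) :
    dg P (i + j + 1) ⁅x, y⁆ =
      rc (P.q_dvd (by omega) (by omega)) (dg P i x) * rc (P.q_dvd (by omega) (by omega)) (dg P j y) -
      rc (P.q_dvd (by omega) (by omega)) (dg P j y) * rc (P.q_dvd (by omega) (by omega)) (dg P i x) := by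
  obtain ⟨g, hg, rfl⟩ := (gam_mem P).1 hx
  obtain ⟨h, hh, rfl⟩ := (gam_mem P).1 hy
  rw [← map_commutatorElement, dg_mk P (by omega), dg_mk P (by omega), dg_mk P (by omega), rc_rd, rc_rd, lp_comm hg hh,
    map_sub, map_mul, map_mul]

theorem dg_sy (a : α) : dg P 0 (sy P a) = le a := by
  have h1 := P.hc
  unfold sy
  rw [dg_mk P (by omega), lp_of]
  ext w
  rw [rd_apply, le_apply, le_apply]
  split_ifs
  · exact Int.cast_one
  · exact Int.cast_zero

/-- the leading part of a right normed commutator of letters -/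
theorem dg_rn (l : List α) (a : α) (hl : l.length + 1 ≤ P.c) :
    dg P l.length (Pool.Agent.H61.Tu.rn (l.map (sy P)) (sy P a)) = (br (l ++ [a]) : List α → ZMod (P.q l.length)) := by
  have h1 : Pool.Agent.H61.Tu.rn (l.map (sy P)) (sy P a) = smk P (rnw l a) := by
    clear hl
    induction l with
    | nil => rfl
    | cons b l ih =>
      rw [List.map_cons, rn_cons, ih, rnw_cons, map_commutatorElement]
      rfl
  rw [h1, dg_mk P hl, lp_rnw, rd_br]

/-- `gam n / gam (n + 1)` is the module of Lie elements -/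
def dgh (n : ℕ) (hn : n + 1 ≤ P.c) : gam (Sp P α) n →* Multiplicative (LL (ZMod (P.q n)) α (n + 1)) where
  toFun x := Multiplicative.ofAdd ⟨dg P n x, dg_ll P hn x.2⟩
  map_one' := by
    refine congrArg Multiplicative.ofAdd (Subtype.ext ?_)
    exact dg_one P hn
  map_mul' x y := by
    refine congrArg Multiplicative.ofAdd (Subtype.ext ?_)
    exact dg_mul P hn x.2 y.2

theorem dgh_surj (n : ℕ) (hn : n + 1 ≤ P.c) : Function.Surjective (dgh P n hn : gam (Sp P α) n →* _) := by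
  intro y
  obtain ⟨x, hx, h⟩ := dg_surj P hn y.toAdd.2
  exact ⟨⟨x, hx⟩, congrArg Multiplicative.ofAdd (Subtype.ext h)⟩

theorem dgh_ker (n : ℕ) (hn : n + 1 ≤ P.c) (x : gam (Sp P α) n) : dgh P n hn x = 1 ↔ (x : Sp P α) ∈ gam (Sp P α) (n + 1) := by
  rw [← dg_eq_zero P hn x.2]
  constructor
  · intro h
    exact congrArg (fun z : Multiplicative (LL (ZMod (P.q n)) α (n + 1)) => (z.toAdd : List α → ZMod (P.q n))) h
  · intro h
    exact congrArg Multiplicative.ofAdd (Subtype.ext h)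

end dg

end H82.S3
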