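import Pool.Agent.H82.S3.Sp

/-!
# H82 S3 ACT: functoriality of `S'` in the letters, the action of a group which permutes the letters
-/

set_option autoImplicit false

open scoped Classical commutatorElement

noncomputable section

namespace H82.S3

open H62.BL Pool.Agent.H61.Tu H88.S3

section map

variable (P : Par) {α β γ : Type}

theorem smap_exists (σ : α → β) : ∃ f : Sp P α →* Sp P β, ∀ a, f (sy P a) = sy P (σ a) :=
  lft_exists P (gam_c P) (fun _ _ _ ht => gam_pow P ht) fun a => sy P (σ a)

/-- the map given by a map of the letters -/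
def smap (σ : α → β) : Sp P α →* Sp P β := (smap_exists P σ).choose

theorem smap_sy (σ : α → β) (a : α) : smap P σ (sy P a) = sy P (σ a) := (smap_exists P σ).choose_spec a

theorem smap_id (x : Sp P α) : smap P (fun a => a) x = x := by
  have h1 : smap P (fun a : α => a) = MonoidHom.id (Sp P α) := sp_hom_ext P _ _ fun a => smap_sy P _ a
  rw [h1]
  rfl

theorem smap_comp (σ : α → β) (τ : β → γ) (x : Sp P α) : smap P τ (smap P σ x) = smap P (fun a => τ (σ a)) x := by
  have h1 : (smap P τ).comp (smap P σ) = smap P (fun a => τ (σ a)) := sp_hom_ext P _ _ fun a => by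
    rw [MonoidHom.comp_apply, smap_sy, smap_sy, smap_sy]
  rw [← h1]
  rfl

theorem smap_smk (σ : α → β) (g : FreeGroup α) : smap P σ (smk P g) = smk P (FreeGroup.map σ g) := by
  have h1 : (smap P σ).comp (smk P) = (smk P).comp (FreeGroup.map σ) := FreeGroup.ext_hom _ _ fun a => by
    rw [MonoidHom.comp_apply, MonoidHom.comp_apply, FreeGroup.map.of]
    exact smap_sy P σ a
  exact DFunLike.congr_fun h1 g

end map

section act

variable {P : Par} {α Q : Type} [Group Q] [MulAction Q α]

instance : SMul Q (Sp P α) := ⟨fun g x => smap P (fun a => g • a) x⟩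

theorem sp_smul (g : Q) (x : Sp P α) : g • x = smap P (fun a => g • a) x := rfl

instance : MulDistribMulAction Q (Sp P α) where
  one_smul x := by
    rw [sp_smul]
    have h1 : (fun a : α => (1 : Q) • a) = fun a => a := funext fun a => one_smul Q a
    rw [h1, smap_id]
  mul_smul g h x := by
    rw [sp_smul, sp_smul, sp_smul, smap_comp]
    congr 2
    exact funext fun a => mul_smul g h a
  smul_mul g x y := map_mul _ x y
  smul_one g := map_one _

theorem smul_sy (g : Q) (a : α) : g • (sy P a) = sy P (g • a) := smap_sy P _ a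

theorem smul_smk (g : Q) (x : FreeGroup α) : g • (smk P x) = smk P (FreeGroup.map (fun a => g • a) x) := smap_smk P _ x

/-- the action on the functions on words -/
def qr (R : Type) [CommRing R] (g : Q) : AW α R →+* AW α R where
  toFun x := qa g x
  map_one' := by
    ext w
    exact congrFun (qa_e1 g) w
  map_mul' x y := by
    ext w
    exact congrFun (qa_cv g x y) w
  map_zero' := rfl
  map_add' _ _ := rfl

theorem qr_apply (R : Type) [CommRing R] (g : Q) (x : AW α R) (w : List α) : qr R g x w = x (w.map fun a => g⁻¹ • a) := rfl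

theorem qr_le (R : Type) [CommRing R] (g : Q) (a : α) : qr R g (le a) = le (g • a) := by
  ext w
  rw [qr_apply, le_apply, le_apply]
  congr 1
  rw [eq_iff_iff]
  constructor
  · intro h
    have h1 := congrArg (List.map fun a => g • a) h
    rw [List.map_map] at h1
    have h2 : (fun a : α => g • a) ∘ (fun a : α => g⁻¹ • a) = id := funext fun a => smul_inv_smul g a
    rw [h2, List.map_id] at h1
    exact h1
  · rintro rfl
    rw [List.map_singleton, inv_smul_smul]

theorem mu_map (g : Q) (x : FreeGroup α) : mu (FreeGroup.map (fun a => g • a) x) = qr ℤ g (mu x) := by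
  have h1 : (mg : FreeGroup α →* _).comp (FreeGroup.map (fun a => g • a)) =
      (Units.map ((qr ℤ g : AW α ℤ →+* AW α ℤ) : AW α ℤ →* AW α ℤ)).comp mg := by
    refine FreeGroup.ext_hom _ _ fun a => Units.ext ?_
    rw [MonoidHom.comp_apply, FreeGroup.map.of]
    change mu (FreeGroup.of (g • a)) = qr ℤ g (mu (FreeGroup.of a))
    rw [mu_of, mu_of, map_add, map_one, qr_le]
  exact congrArg Units.val (DFunLike.congr_fun h1 x)

theorem lp_map (g : Q) (n : ℕ) (x : FreeGroup α) : lp n (FreeGroup.map (fun a => g • a) x) = qr ℤ g (lp n x) := by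
  unfold lp
  rw [mu_map]
  ext w
  rw [qr_apply, pa_apply, pa_apply, List.length_map, aw_sub, aw_sub, qr_apply, aw_one, aw_one]
  simp

theorem dg_smul {n : ℕ} (hn : n + 1 ≤ P.c) (g : Q) (x : Sp P α) : dg P n (g • x) = qr _ g (dg P n x) := by
  obtain ⟨y, rfl⟩ := smk_surj P x
  rw [smul_smk, dg_mk P hn, dg_mk P hn, lp_map]
  rfl

theorem gam_smul (g : Q) {n : ℕ} {x : Sp P α} (hx : x ∈ gam (Sp P α) n) : g • x ∈ gam (Sp P α) n :=
  gam_map (smap P fun a => g • a) n hx

end act

end H82.S3
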