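import Pool.Agent.H82.S3.Sp

/-!
# H82 S3 CEN: the powers `x ^ q (n + 1)`, `x ∈ gam n`, are central in `S'`
-/

set_option autoImplicit false

open scoped Classical commutatorElement

noncomputable section

namespace H82.S3

open H62.BL Pool.Agent.H61.Tu H88.S3

section f2

variable {α : Type}

/-- powers of the elements of degree `i + 1` with the next precision -/
theorem f2 {p c : ℕ} (hp : p.Prime) {M : ℕ → ℕ} (hM : MOk c M) {i : ℕ} {a : AW α ℤ} (ha : a ∈ Zd α ℤ i) :
    (1 + a) ^ (p ^ M (i + 2)) - 1 ∈ Dv α (fun n => dm p M (n + 1)) (c - 1) := by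
  rw [add_comm, (Commute.one_right a).add_pow, Finset.sum_range_succ', pow_zero, one_mul, one_pow, one_mul,
    Nat.choose_zero_right, Nat.cast_one, add_sub_cancel_right]
  refine sum_mem fun k hk => ?_
  rw [one_pow, mul_one]
  intro w hw
  have h1 : (a ^ (k + 1) * (((p ^ M (i + 2)).choose (k + 1) : ℕ) : AW α ℤ)) w =
      (a ^ (k + 1)) w * ((p ^ M (i + 2)).choose (k + 1) : ℕ) := by
    rw [← nsmul_eq_mul', mul_comm, ← nsmul_eq_mul]
    rfl
  rw [h1]
  by_cases h2 : w.length ≤ (k + 1) * (i + 1) - 1
  · rw [pow_zd ha k w h2, zero_mul]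
    exact dvd_zero _
  · have h3 : (k + 1) * (i + 1) ≤ w.length := by omega
    have h4 : 1 ≤ (k + 1) * (i + 1) := Nat.succ_le_of_lt (by positivity)
    change dm p M (w.length + 1) ∣ _
    rw [dm_pos (by omega)]
    refine dvd_mul_of_dvd_right ?_ _
    have h5 : p ^ M (w.length + 1) ∣ (p ^ M (i + 2)).choose (k + 1) := by
      refine chp hp (by omega) ?_
      have h6 : k + 1 ≤ (k + 1) * (i + 1) := Nat.le_mul_of_pos_right _ (by omega)
      rcases Nat.eq_zero_or_pos k with h7 | h7
      · subst h7
        rw [Nat.zero_add, one_mul] at h3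
        have := mok_le hM (n := i + 2) (m := w.length + 1) (by omega) (by omega) (by omega)
        omega
      · have h8 : i + 1 < (k + 1) * (i + 1) := by nlinarith
        have := mok_lt hM (n := i + 2) (m := w.length + 1) (by omega) (by omega) (by omega)
        omega
    exact_mod_cast Int.natCast_dvd_natCast.2 h5

/-- a product with a function without constant coefficient -/
theorem dv_shift {d : ℕ → ℤ} {c : ℕ} (hd : ∀ n m, n ≤ m → m ≤ c → d m ∣ d n) {x y : AW α ℤ}
    (hx : x ∈ Dv α (fun n => d (n + 1)) (c - 1)) (hy : y ∈ Zd α ℤ 0) : x * y ∈ Dv α d c ∧ y * x ∈ Dv α d c := by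
  constructor
  · intro w hw
    rw [aw_sum]
    refine Finset.dvd_sum fun k hk => ?_
    rw [Finset.mem_range] at hk
    rcases Nat.lt_or_ge k w.length with h1 | h1
    · refine dvd_mul_of_dvd_left ?_ _
      have h2 : (w.take k).length = k := by rw [List.length_take]; omega
      have h3 := hx (w.take k) (by omega)
      rw [h2] at h3
      exact (hd (k + 1) w.length (by omega) hw).trans h3
    · rw [hy (w.drop k) (by rw [List.length_drop]; omega), mul_zero]
      exact dvd_zero _
  · intro w hw
    rw [aw_sum]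
    refine Finset.dvd_sum fun k hk => ?_
    rw [Finset.mem_range] at hk
    rcases Nat.eq_zero_or_pos k with h1 | h1
    · rw [hy (w.take k) (by rw [List.length_take]; omega), zero_mul]
      exact dvd_zero _
    · refine dvd_mul_of_dvd_right ?_ _
      have h2 : (w.drop k).length = w.length - k := by rw [List.length_drop]
      have h3 := hx (w.drop k) (by omega)
      rw [h2] at h3
      exact (hd (w.length - k + 1) w.length (by omega) hw).trans h3

end f2

section cen

variable (P : Par) {α : Type}

/-- elements whose coefficients have the next precision are central -/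
theorem cen_of {g : FreeGroup α} (hg : mu g - 1 ∈ Dv α (fun n => dm P.p P.M (n + 1)) (P.c - 1)) (y : Sp P α) :
    smk P g * y = y * smk P g := by
  obtain ⟨h, rfl⟩ := smk_surj P y
  rw [← commutatorElement_eq_one_iff_mul_comm, ← map_commutatorElement, smk_eq_one, kk_iff, mu_comm]
  have h1 := dv_shift (dm_dvd P.ok) hg (mu_sub_one h)
  exact dv_mul_left (dm_dvd P.ok) (sub_mem h1.1 h1.2) _

theorem pow_cen {n : ℕ} {x : Sp P α} (hx : x ∈ gam (Sp P α) n) (y : Sp P α) : x ^ P.q (n + 1) * y = y * x ^ P.q (n + 1) := by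
  obtain ⟨g, hg, rfl⟩ := (gam_mem P).1 hx
  rw [← map_pow]
  refine cen_of P ?_ y
  rw [mu_pow]
  have h1 := f2 (α := α) P.hp P.ok (mu_gam hg)
  rwa [add_sub_cancel] at h1

end cen

end H82.S3
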