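import Pool.Agent.H82.S3.Cen
import Pool.Agent.H82.S3.Act
import Pool.Agent.H88.S3.Unl
import Pool.Agent.H73.S3.Al

/-!
# H82 S3 DUS: the layers of `S'` as quotients of the Lie elements over `ZMod q`; functionals

`lq : LL (ZMod q) α (n + 1) →+ Gr S' (n + 1)`, `P.q n ∣ q`. `dus`: survivors.
-/

set_option autoImplicit false

open scoped Classical commutatorElement

noncomputable section

namespace H82.S3

open H62.BL Pool.Agent.H61.Tu H88.S3

open H73.S3 (gm Gr gk Du gk_surj gk_zero gk_mul gk_inv gk_of smul_gk br_gk)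

section lq

variable (P : Par) {α : Type}

theorem gk_dg {n : ℕ} (hn : n + 1 ≤ P.c) {u v : Sp P α} (hu : u ∈ gam (Sp P α) n) (hv : v ∈ gam (Sp P α) n)
    (h : dg P n u = dg P n v) : gk (n + 1) u = gk (n + 1) v := by
  have h1 : dg P n (u⁻¹ * v) = 0 := by
    have h2 := dg_mul P hn hu (mul_mem (inv_mem hu) hv)
    rw [mul_inv_cancel_left, h] at h2
    exact left_eq_add.1 h2
  have h2 := (dg_eq_zero P hn (mul_mem (inv_mem hu) hv)).1 h1
  have h3 : gk (n + 1) (u⁻¹ * v) = 0 := (gk_zero (S := Sp P α) (m := n + 1) (mul_mem (inv_mem hu) hv)).2 h2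
  rw [gk_mul (S := Sp P α) (m := n + 1) (inv_mem hu) hv, gk_inv (S := Sp P α) (m := n + 1) hu] at h3
  exact (neg_add_eq_zero.1 h3)

theorem rc_ll {q q' d : ℕ} (h : q' ∣ q) {y : List α → ZMod q} (hy : y ∈ LL (ZMod q) α d) : rc h y ∈ LL (ZMod q') α d := by
  obtain ⟨x, hx, rfl⟩ := ll_rd hy
  rw [rc_rd]
  exact rd_ll hx

theorem lq_exists {n q : ℕ} (hn : n + 1 ≤ P.c) (hq : P.q n ∣ q) :
    ∃ f : LL (ZMod q) α (n + 1) →+ Gr (Sp P α) (n + 1),
      ∀ (y : LL (ZMod q) α (n + 1)), ∀ u ∈ gam (Sp P α) n, dg P n u = rc hq y.1 → f y = gk (n + 1) u := by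
  have h1 : ∀ y : LL (ZMod q) α (n + 1), ∃ u ∈ gam (Sp P α) n, dg P n u = rc hq y.1 := fun y => dg_surj P hn (rc_ll hq y.2)
  choose F hF hF' using h1
  refine ⟨AddMonoidHom.mk' (fun y => gk (n + 1) (F y)) fun x y => ?_, fun y u hu h => gk_dg P hn (hF y) hu ((hF' y).trans h.symm)⟩
  rw [← gk_mul (S := Sp P α) (m := n + 1) (hF x) (hF y)]
  refine gk_dg P hn (hF _) (mul_mem (hF x) (hF y)) ?_
  rw [hF', dg_mul P hn (hF x) (hF y), hF', hF', ← map_add]
  rfl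

/-- the class of a Lie element -/
def lq {n q : ℕ} (hn : n + 1 ≤ P.c) (hq : P.q n ∣ q) : LL (ZMod q) α (n + 1) →+ Gr (Sp P α) (n + 1) :=
  (lq_exists P hn hq).choose

theorem lq_eq {n q : ℕ} (hn : n + 1 ≤ P.c) (hq : P.q n ∣ q) (y : LL (ZMod q) α (n + 1)) {u : Sp P α} (hu : u ∈ gam (Sp P α) n)
    (h : dg P n u = rc hq y.1) : lq P hn hq y = gk (n + 1) u := (lq_exists P hn hq).choose_spec y u hu h

theorem lq_surj {n q : ℕ} (hn : n + 1 ≤ P.c) (hq : P.q n ∣ q) : Function.Surjective (lq P hn hq : LL (ZMod q) α (n + 1) →+ _) := by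
  intro a
  obtain ⟨u, hu, rfl⟩ := gk_surj (n + 1) a
  obtain ⟨x, hx, hx'⟩ := ll_rd (dg_ll P hn hu)
  refine ⟨⟨rd q x, rd_ll hx⟩, lq_eq P hn hq _ hu ?_⟩
  rw [rc_rd]
  exact hx'.symm

theorem lq_ker {n q : ℕ} (hn : n + 1 ≤ P.c) (hq : P.q n ∣ q) (y : LL (ZMod q) α (n + 1)) (h : lq P hn hq y = 0) :
    ∃ z : LL (ZMod q) α (n + 1), y = (P.q n : ZMod q) • z := by
  obtain ⟨u, hu, hu'⟩ := dg_surj P hn (rc_ll hq y.2)
  rw [lq_eq P hn hq y hu hu', gk_zero (S := Sp P α) (m := n + 1) hu] at h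
  have h1 := (dg_eq_zero P hn hu).2 h
  obtain ⟨x, hx, hx'⟩ := ll_rd y.2
  have h2 : rd (P.q n) x = 0 := by
    rw [← rc_rd hq, ← h1]
    exact (congrArg (rc hq) hx').trans hu'.symm
  obtain ⟨z, hz, hz'⟩ := sat (P.q n) (n + 1) x hx (rd_eq_zero.1 h2)
  refine ⟨⟨rd q z, rd_ll hz⟩, Subtype.ext ?_⟩
  have h3 : (y.1 : List α → ZMod q) = rd q x := hx'.symm
  rw [h3, hz']
  exact (rd_smul q (P.q n : ℤ) z).trans (by rw [Int.cast_natCast]; rfl)

theorem AD_aw {R : Type} [CommRing R] (a : α) (y : AW α R) : (AD a y : List α → R) = (le a * y - y * le a : AW α R) := rfl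

theorem rc_le {q q' : ℕ} (h : q' ∣ q) (a : α) : rc h (le a : AW α (ZMod q)) = le a := by
  ext w
  change ZMod.castHom h (ZMod q') ((le a : AW α (ZMod q)) w) = _
  rw [le_apply, le_apply]
  split_ifs
  · exact map_one _
  · exact map_zero _

theorem rc_rc {q q' q'' : ℕ} (h : q' ∣ q) (h' : q'' ∣ q') (h'' : q'' ∣ q) (x : AW α (ZMod q)) : rc h' (rc h x) = rc h'' x := by
  ext w
  change ZMod.castHom h' (ZMod q'') (ZMod.castHom h (ZMod q') (x w)) = ZMod.castHom h'' (ZMod q'') (x w)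
  obtain ⟨r, hr⟩ := ZMod.intCast_surjective (x w)
  rw [← hr, map_intCast, map_intCast, map_intCast]

theorem dg_comm' {i j k : ℕ} (hk : k = i + j + 1) (hn : i + j + 2 ≤ P.c) {x y : Sp P α} (hx : x ∈ gam (Sp P α) i)
    (hy : y ∈ gam (Sp P α) j) (h1 : P.q k ∣ P.q i) (h2 : P.q k ∣ P.q j) :
    ⁅x, y⁆ ∈ gam (Sp P α) k ∧ dg P k ⁅x, y⁆ = rc h1 (dg P i x) * rc h2 (dg P j y) - rc h2 (dg P j y) * rc h1 (dg P i x) := by
  subst hk
  exact ⟨commutator_mem_gam' hx hy, dg_comm P hn hx hy⟩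

theorem lq_AD {n q : ℕ} (hn : n + 2 ≤ P.c) (hq : P.q n ∣ q) (hq' : P.q (n + 1) ∣ q) (a : α) (y : LL (ZMod q) α (n + 1)) :
    lq P (n := n + 1) hn hq' ⟨AD a y.1, ad_ll _ y.2⟩ = H73.S3.br (n + 1) (sy P a) (lq P (by omega) hq y) := by
  obtain ⟨u, hu, hu'⟩ := dg_surj P (by omega) (rc_ll hq y.2)
  rw [lq_eq P (by omega) hq y hu hu', br_gk (S := Sp P α) (m := n + 1) _ hu]
  obtain ⟨h1, h2⟩ := dg_comm' P (i := 0) (j := n) (k := n + 1) (by omega) (by omega) (mem0 (sy P a)) hu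
    (P.q_dvd (by omega) (by omega)) (P.q_dvd (by omega) (by omega))
  refine lq_eq P hn hq' _ h1 ?_
  obtain ⟨y, hy⟩ := y
  have h3 : ∀ y : AW α (ZMod q), rc hq' (AD a y : List α → ZMod q) = rc hq' (le a * y - y * le a) := fun _ => rfl
  rw [h2, dg_sy, hu', rc_le, rc_rc hq _ hq']
  refine Eq.trans ?_ (h3 y).symm
  rw [map_sub, map_mul, map_mul, rc_le]

theorem rc_qr {Q : Type} [Group Q] [MulAction Q α] {q q' : ℕ} (h : q' ∣ q) (g : Q) (x : AW α (ZMod q)) :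
    rc h (qr _ g x) = qr _ g (rc h x) := rfl

theorem lq_qa {Q : Type} [Group Q] [MulAction Q α] {n q : ℕ} (hn : n + 1 ≤ P.c) (hq : P.q n ∣ q) (g : Q)
    (y : LL (ZMod q) α (n + 1)) : lq P hn hq ⟨qa g y.1, qa_ll g y.2⟩ = g • lq P hn hq y := by
  obtain ⟨u, hu, hu'⟩ := dg_surj P hn (rc_ll hq y.2)
  rw [lq_eq P hn hq y hu hu', smul_gk (S := Sp P α) (m := n + 1) g hu]
  refine lq_eq P hn hq _ (gam_smul g hu) ?_
  rw [dg_smul hn, hu']
  rfl

/-- the Lie elements of degree `n + 2` are brackets -/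
theorem ll_ad {q n : ℕ} {x : List α → ZMod q} (hx : x ∈ LL (ZMod q) α (n + 2)) :
    x ∈ Submodule.span (ZMod q) {z | ∃ (a : α) (y : List α → ZMod q), y ∈ LL (ZMod q) α (n + 1) ∧ z = AD a y} := by
  induction hx using Submodule.span_induction with
  | mem x hx =>
    obtain ⟨w, hw, rfl⟩ := hx
    rcases w with _ | ⟨a, w⟩
    · simp at hw
    have hw' : w.length = n + 1 := by simpa using hw
    have hw0 : w ≠ [] := by rintro rfl; simp at hw'
    exact Submodule.subset_span ⟨a, br w, ll_mem hw', (AD_br a hw0).symm⟩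
  | zero => exact Submodule.zero_mem _
  | add a b _ _ ha hb => exact Submodule.add_mem _ ha hb
  | smul r a _ ha => exact Submodule.smul_mem _ _ ha

/-- SURVIVORS: from the Lie elements over `ZMod q` to the layers of `S'` -/
theorem dus {Q ι : Type} [Group Q] [MulAction Q α] {n q : ℕ} (hn : n + 2 ≤ P.c) (hq : P.q n ∣ q) (hq' : P.q (n + 1) ∣ q)
    (s : ι → α) (hs : Function.Surjective s) (chi : ι → Du (Sp P α) q (n + 1)) (kap : Q → Du (Sp P α) q (n + 2))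
    (h0 : ∀ v a, (chi v).ap (P.q (n + 1) • a) = 0)
    (la : LL (ZMod q) α (n + 2) →ₗ[ZMod q] ZMod q)
    (h1 : ∀ v (y : LL (ZMod q) α (n + 1)), (chi v).ap (lq P (by omega) hq y) = - la ⟨AD (s v) y.1, ad_ll _ y.2⟩)
    (h2 : ∀ (u : Q) (x : LL (ZMod q) α (n + 2)), (kap u).ap (lq P (n := n + 1) hn hq' x) = la ⟨qa u⁻¹ x.1, qa_ll _ x.2⟩ - la x) :
    ∃ lam : Du (Sp P α) q (n + 2), (∀ v a, (chi v).ap a = - lam.ap (H73.S3.br (n + 1) (sy P (s v)) a)) ∧
      ∀ u : Q, kap u = u • lam - lam := by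
  have hk : ∀ x : LL (ZMod q) α (n + 2), lq P (n := n + 1) hn hq' x = 0 → la x = 0 := by
    intro x hx
    obtain ⟨z, rfl⟩ := lq_ker P (n := n + 1) hn hq' x hx
    clear hx
    obtain ⟨z, hz⟩ := z
    have h3 : ∀ z (hz : z ∈ LL (ZMod q) α (n + 2)), la ((P.q (n + 1) : ZMod q) • ⟨z, hz⟩) = 0 := by
      intro z hz
      have h4 := ll_ad hz
      induction h4 using Submodule.span_induction with
      | mem x hx =>
        obtain ⟨a, y, hy, rfl⟩ := hx
        obtain ⟨v, rfl⟩ := hs a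
        have h5 := h1 v ((P.q (n + 1) : ZMod q) • ⟨y, hy⟩)
        have h6 : (⟨AD (s v) ((P.q (n + 1) : ZMod q) • (⟨y, hy⟩ : LL (ZMod q) α (n + 1))).1, ad_ll _ ((P.q (n + 1) : ZMod q) • (⟨y, hy⟩ : LL (ZMod q) α (n + 1))).2⟩ :
            LL (ZMod q) α (n + 2)) = (P.q (n + 1) : ZMod q) • ⟨AD (s v) y, hz⟩ := Subtype.ext (map_smul (AD (s v)) (P.q (n + 1) : ZMod q) y)
        rw [h6] at h5
        have h7 : ((P.q (n + 1) : ZMod q) • (⟨y, hy⟩ : LL (ZMod q) α (n + 1))) = P.q (n + 1) • (⟨y, hy⟩ : LL (ZMod q) α (n + 1)) :=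
          Nat.cast_smul_eq_nsmul _ _ _
        rw [h7, map_nsmul, h0] at h5
        exact neg_eq_zero.1 h5.symm
      | zero =>
        have : (⟨0, hz⟩ : LL (ZMod q) α (n + 2)) = 0 := rfl
        rw [this, smul_zero, map_zero]
      | add a b ha' hb' ha hb =>
        have m1 : a ∈ LL (ZMod q) α (n + 2) := by
          refine (Submodule.span_le.2 ?_) ha'
          rintro _ ⟨c, y, hy, rfl⟩
          exact ad_ll _ hy
        have m2 : b ∈ LL (ZMod q) α (n + 2) := by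
          refine (Submodule.span_le.2 ?_) hb'
          rintro _ ⟨c, y, hy, rfl⟩
          exact ad_ll _ hy
        have : (⟨a + b, hz⟩ : LL (ZMod q) α (n + 2)) = ⟨a, m1⟩ + ⟨b, m2⟩ := rfl
        rw [this, smul_add, map_add, ha m1, hb m2, add_zero]
      | smul r a ha' ha =>
        have m1 : a ∈ LL (ZMod q) α (n + 2) := by
          refine (Submodule.span_le.2 ?_) ha'
          rintro _ ⟨c, y, hy, rfl⟩
          exact ad_ll _ hy
        have : (⟨r • a, hz⟩ : LL (ZMod q) α (n + 2)) = r • ⟨a, m1⟩ := rfl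
        rw [this, smul_comm, map_smul, ha m1, smul_zero]
    exact h3 z hz
  -- the functional on the layer
  have hg : ∃ lam : Gr (Sp P α) (n + 2) →+ ZMod q, ∀ x : LL (ZMod q) α (n + 2), lam (lq P (n := n + 1) hn hq' x) = la x := by
    have hs' := lq_surj P (α := α) (n := n + 1) hn hq'
    refine ⟨AddMonoidHom.mk' (fun a => la (Function.surjInv hs' a)) fun a b => ?_, fun x => ?_⟩
    · rw [← sub_eq_zero, ← map_add, ← map_sub]
      refine hk _ ?_
      rw [map_sub, map_add, Function.surjInv_eq hs', Function.surjInv_eq hs', Function.surjInv_eq hs', sub_self]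
    · change la (Function.surjInv hs' _) = la x
      rw [← sub_eq_zero, ← map_sub]
      refine hk _ ?_
      rw [map_sub, Function.surjInv_eq hs', sub_self]
  obtain ⟨lam, hlam⟩ := hg
  refine ⟨lam, fun v a => ?_, fun u => ?_⟩
  · obtain ⟨y, rfl⟩ := lq_surj P (α := α) (n := n) (by omega) hq a
    rw [h1, ← lq_AD P hn hq hq']
    change _ = - lam _
    rw [hlam]
  · refine H73.S3.du_ext fun a => ?_
    obtain ⟨x, rfl⟩ := lq_surj P (α := α) (n := n + 1) hn hq' a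
    rw [h2, H73.S3.ap_sub, H73.S3.ap_smul, ← lq_qa]
    change _ = lam _ - lam _
    rw [hlam, hlam]

end lq

end H82.S3
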