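import Pool.Agent.H88.S3.Sat
import Pool.Agent.H61.Tu.GamGen

/-!
# H82 S3 MAG: the Magnus map

`AW α R`: the ring of functions on words (product `cv`). `mu g`: the Magnus expansion of an element of the free group, coefficients `ℤ`.
`Zd n`: the functions which vanish on the words of length at most `n`. `mu_gam`: `g ∈ gam n → mu g - 1 ∈ Zd n`.
-/

set_option autoImplicit false

open scoped Classical commutatorElement

noncomputable section

namespace H82.S3

open H62.BL Pool.Agent.H61.Tu

/-- noncommutative power series -/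
def AW (α R : Type) : Type := List α → R

section ring

variable {α R : Type} [CommRing R]

instance : AddCommGroup (AW α R) := inferInstanceAs (AddCommGroup (List α → R))

instance : Module R (AW α R) := inferInstanceAs (Module R (List α → R))

instance : Mul (AW α R) := ⟨fun x y => cv x y⟩

instance : One (AW α R) := ⟨e1⟩

theorem aw_mul (x y : AW α R) (w : List α) : (x * y) w = cv x y w := rfl

theorem aw_one (w : List α) : (1 : AW α R) w = if w = [] then 1 else 0 := rfl

theorem aw_add (x y : AW α R) (w : List α) : (x + y) w = x w + y w := rfl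

theorem aw_sub (x y : AW α R) (w : List α) : (x - y) w = x w - y w := rfl

theorem aw_zero (w : List α) : (0 : AW α R) w = 0 := rfl

theorem aw_neg (x : AW α R) (w : List α) : (-x) w = - x w := rfl

theorem aw_smul (r : R) (x : AW α R) (w : List α) : (r • x) w = r * x w := rfl

omit [CommRing R] in
@[ext] theorem aw_ext {x y : AW α R} (h : ∀ w, x w = y w) : x = y := funext h

instance : Ring (AW α R) :=
  { (inferInstance : AddCommGroup (AW α R)), (inferInstance : Mul (AW α R)), (inferInstance : One (AW α R)) with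
    left_distrib := fun x y z => funext fun w => cv_add_right x y z w
    right_distrib := fun x y z => funext fun w => cv_add_left x y z w
    zero_mul := fun x => funext fun w => cv_zero_left x w
    mul_zero := fun x => funext fun w => cv_zero_right x w
    mul_assoc := fun x y z => funext fun w => cv_assoc x y z w
    one_mul := fun x => funext fun w => cv_one_left x w
    mul_one := fun x => funext fun w => cv_one_right x w }

theorem aw_nil_mul (x y : AW α R) : (x * y) [] = x [] * y [] := cv_nil x y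

/-- the constant coefficient -/
def aug : AW α R →+* R where
  toFun x := x []
  map_one' := by
    change (if ([] : List α) = [] then (1 : R) else 0) = 1
    exact if_pos rfl
  map_mul' x y := aw_nil_mul x y
  map_zero' := rfl
  map_add' _ _ := rfl

theorem aw_sum (x y : AW α R) (w : List α) :
    (x * y) w = ∑ i ∈ Finset.range (w.length + 1), x (w.take i) * y (w.drop i) := cv_eq x y w

theorem right_inv {x : AW α R} (h : x [] = 1) : ∃ y : AW α R, x * y = 1 ∧ y [] = 1 := by
  obtain ⟨y, hy⟩ : ∃ y : AW α R, x * y = 1 := ⟨_, cv_right_inv h⟩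
  refine ⟨y, hy, ?_⟩
  have h1 := congrArg (aug (α := α) (R := R)) hy
  rw [map_mul, map_one] at h1
  have h2 : aug x = 1 := h
  rw [h2, one_mul] at h1
  exact h1

theorem both_inv {x : AW α R} (h : x [] = 1) : ∃ y : AW α R, x * y = 1 ∧ y * x = 1 := by
  obtain ⟨y, hy, h1⟩ := right_inv h
  obtain ⟨z, hz, -⟩ := right_inv h1
  have h2 : x = z := by
    calc x = x * (y * z) := by rw [hz, mul_one]
      _ = z := by rw [← mul_assoc, hy, one_mul]
  exact ⟨y, hy, by rw [h2]; exact hz⟩

/-- the unit with a given value -/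
def un (x : AW α R) (h : x [] = 1) : (AW α R)ˣ :=
  ⟨x, (both_inv h).choose, (both_inv h).choose_spec.1, (both_inv h).choose_spec.2⟩

/-- the letter -/
def le (a : α) : AW α R := el a

theorem le_apply (a : α) (w : List α) : (le a : AW α R) w = if w = [a] then 1 else 0 := rfl

theorem le_nil (a : α) : (1 + le a : AW α R) [] = 1 := by
  rw [aw_add, aw_one, if_pos rfl, le_apply, if_neg (by simp), add_zero]

theorem le_mul_cons (a b : α) (x : AW α R) (w : List α) :
    (le a * x : AW α R) (b :: w) = if b = a then x w else 0 :=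
  cv_el_left a x (b :: w)

end ring

section zd

variable {α R : Type} [CommRing R]

variable (α R) in
/-- functions which vanish on the words of length at most `n` -/
def Zd (n : ℕ) : AddSubgroup (AW α R) where
  carrier := {x | ∀ w : List α, w.length ≤ n → x w = 0}
  zero_mem' w _ := rfl
  add_mem' {x y} hx hy w hw := by rw [aw_add, hx w hw, hy w hw, add_zero]
  neg_mem' {x} hx w hw := by rw [aw_neg, hx w hw, neg_zero]

theorem zd_iff {n : ℕ} {x : AW α R} : x ∈ Zd α R n ↔ ∀ w : List α, w.length ≤ n → x w = 0 := Iff.rfl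

theorem zd_anti {n m : ℕ} (h : n ≤ m) {x : AW α R} (hx : x ∈ Zd α R m) : x ∈ Zd α R n :=
  fun w hw => hx w (hw.trans h)

theorem zd_mul {i j : ℕ} {x y : AW α R} (hx : x ∈ Zd α R i) (hy : y ∈ Zd α R j) : x * y ∈ Zd α R (i + j + 1) := by
  intro w hw
  rw [aw_sum]
  refine Finset.sum_eq_zero fun k hk => ?_
  rw [Finset.mem_range] at hk
  by_cases h1 : k ≤ i
  · rw [hx _ (by rw [List.length_take]; omega), zero_mul]
  · rw [hy _ (by rw [List.length_drop]; omega), mul_zero]

theorem zd_mul_left {i : ℕ} {x : AW α R} (hx : x ∈ Zd α R i) (y : AW α R) : x * y ∈ Zd α R i := by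
  intro w hw
  rw [aw_sum]
  refine Finset.sum_eq_zero fun k hk => ?_
  rw [hx _ (by rw [List.length_take]; omega), zero_mul]

theorem zd_mul_right {i : ℕ} {x : AW α R} (hx : x ∈ Zd α R i) (y : AW α R) : y * x ∈ Zd α R i := by
  intro w hw
  rw [aw_sum]
  refine Finset.sum_eq_zero fun k hk => ?_
  rw [hx _ (by rw [List.length_drop]; omega), mul_zero]

/-- homogeneous part -/
def pa (d : ℕ) : AW α R →ₗ[R] AW α R := H88.S3.pr d

theorem pa_apply (d : ℕ) (x : AW α R) (w : List α) : pa d x w = if w.length = d then x w else 0 := rfl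

theorem pa_zd {n : ℕ} {x : AW α R} (hx : x ∈ Zd α R n) {d : ℕ} (hd : d ≤ n) : pa d x = 0 := by
  ext w
  rw [pa_apply, aw_zero]
  by_cases h : w.length = d
  · rw [if_pos h, hx w (by omega)]
  · rw [if_neg h]

/-- the leading part of a product -/
theorem pa_mul {i j : ℕ} {x y : AW α R} (hx : x ∈ Zd α R i) (hy : y ∈ Zd α R j) :
    pa (i + j + 2) (x * y) = pa (i + 1) x * pa (j + 1) y := by
  ext w
  rw [pa_apply, aw_sum, aw_sum]
  by_cases h : w.length = i + j + 2
  · rw [if_pos h]
    refine Finset.sum_congr rfl fun k hk => ?_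
    rw [Finset.mem_range] at hk
    rw [pa_apply, pa_apply, List.length_take, List.length_drop]
    rcases lt_trichotomy k (i + 1) with h1 | h1 | h1
    · rw [hx _ (by rw [List.length_take]; omega), if_neg (by omega), zero_mul, zero_mul]
    · rw [if_pos (by omega), if_pos (by omega)]
    · rw [hy _ (by rw [List.length_drop]; omega), if_neg (by omega), mul_zero, zero_mul]
  · rw [if_neg h]
    symm
    refine Finset.sum_eq_zero fun k hk => ?_
    rw [Finset.mem_range] at hk
    rw [pa_apply, pa_apply, List.length_take, List.length_drop]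
    by_cases h1 : min k w.length = i + 1
    · rw [if_neg (show ¬ (w.length - k = j + 1) by omega), mul_zero]
    · rw [if_neg h1, zero_mul]

/-- multiplication by a unit does not change the leading part -/
theorem pa_mul_unit {i : ℕ} {x u : AW α R} (hx : x ∈ Zd α R i) (hu : u [] = 1) :
    pa (i + 1) (x * u) = pa (i + 1) x := by
  have h1 : u - 1 ∈ Zd α R 0 := by
    intro w hw
    have hw' : w = [] := List.length_eq_zero_iff.1 (by omega)
    subst hw'
    rw [aw_sub, hu, aw_one, if_pos rfl, sub_self]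
  have h2 : x * u = x + x * (u - 1) := by rw [mul_sub, mul_one]; abel
  rw [h2, map_add, pa_zd (zd_mul hx h1) (by omega), add_zero]

end zd

section mag

variable {α : Type}

/-- the Magnus map -/
def mg : FreeGroup α →* (AW α ℤ)ˣ := FreeGroup.lift fun a => un (1 + le a) (le_nil a)

/-- the Magnus expansion -/
def mu (g : FreeGroup α) : AW α ℤ := (mg g : (AW α ℤ)ˣ)

theorem mu_of (a : α) : mu (FreeGroup.of a) = 1 + le a := by
  unfold mu mg
  rw [FreeGroup.lift_apply_of]
  rfl

theorem mu_mul (g h : FreeGroup α) : mu (g * h) = mu g * mu h := by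
  unfold mu
  rw [map_mul]
  rfl

theorem mu_one : mu (1 : FreeGroup α) = 1 := by
  unfold mu
  rw [map_one]
  rfl

theorem mu_pow (g : FreeGroup α) (n : ℕ) : mu (g ^ n) = mu g ^ n := by
  unfold mu
  rw [map_pow]
  rfl

theorem mu_inv (g : FreeGroup α) : mu g * mu g⁻¹ = 1 := by rw [← mu_mul, mul_inv_cancel, mu_one]

theorem mu_inv' (g : FreeGroup α) : mu g⁻¹ * mu g = 1 := by rw [← mu_mul, inv_mul_cancel, mu_one]

theorem mu_nil (g : FreeGroup α) : mu g [] = 1 := by
  have h1 : ∀ g : FreeGroup α, (Units.map (aug (α := α) (R := ℤ) : AW α ℤ →* ℤ)).comp mg g = 1 := by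
    intro g
    have h2 : (Units.map (aug (α := α) (R := ℤ) : AW α ℤ →* ℤ)).comp mg = 1 := by
      refine FreeGroup.ext_hom _ _ fun a => Units.ext ?_
      change (mu (FreeGroup.of a)) [] = 1
      rw [mu_of]
      exact le_nil a
    rw [h2]
    rfl
  exact congrArg Units.val (h1 g)

theorem mu_sub_one (g : FreeGroup α) : mu g - 1 ∈ Zd α ℤ 0 := by
  intro w hw
  have hw' : w = [] := List.length_eq_zero_iff.1 (by omega)
  subst hw'
  rw [aw_sub, mu_nil, aw_one, if_pos rfl, sub_self]

theorem mu_comm (g h : FreeGroup α) :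
    mu ⁅g, h⁆ - 1 = ((mu g - 1) * (mu h - 1) - (mu h - 1) * (mu g - 1)) * mu (h * g)⁻¹ := by
  have h1 : (mu g - 1) * (mu h - 1) - (mu h - 1) * (mu g - 1) = mu g * mu h - mu h * mu g := by noncomm_ring
  rw [h1, ← mu_mul, ← mu_mul, sub_mul, ← mu_mul, ← mu_mul, mul_inv_cancel, mu_one]
  congr 2
  rw [commutatorElement_def]
  group

/-- the subgroup of the elements with expansion `1 + Zd n` -/
def Dg (n : ℕ) : Subgroup (FreeGroup α) where
  carrier := {g | mu g - 1 ∈ Zd α ℤ n}
  one_mem' := by
    change mu 1 - 1 ∈ Zd α ℤ n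
    rw [mu_one, sub_self]
    exact zero_mem _
  mul_mem' {g h} hg hh := by
    change mu (g * h) - 1 ∈ Zd α ℤ n
    have h1 : mu (g * h) - 1 = (mu g - 1) * mu h + (mu h - 1) := by rw [mu_mul]; noncomm_ring
    rw [h1]
    exact add_mem (zd_mul_left hg _) hh
  inv_mem' {g} hg := by
    change mu g⁻¹ - 1 ∈ Zd α ℤ n
    have h1 : mu g⁻¹ - 1 = - ((mu g - 1) * mu g⁻¹) := by rw [sub_mul, mu_inv, one_mul, neg_sub]
    rw [h1]
    exact neg_mem (zd_mul_left hg _)

theorem mu_gam {n : ℕ} {g : FreeGroup α} (hg : g ∈ gam (FreeGroup α) n) : mu g - 1 ∈ Zd α ℤ n := by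
  have h1 : ∀ n, gam (FreeGroup α) n ≤ Dg n := by
    intro n
    induction n with
    | zero => intro g _; exact mu_sub_one g
    | succ n ih =>
      have h2 : gam (FreeGroup α) (n + 1) = ⁅gam (FreeGroup α) n, ⊤⁆ := rfl
      rw [h2, Subgroup.commutator_le]
      intro g hg h _
      change mu ⁅g, h⁆ - 1 ∈ Zd α ℤ (n + 1)
      rw [mu_comm]
      refine zd_mul_left (sub_mem (zd_mul (ih hg) (mu_sub_one h)) ?_) _
      have := zd_mul (mu_sub_one h) (ih hg)
      rwa [Nat.zero_add] at this
  exact h1 n hg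

/-- the leading part of an element of `gam n` -/
def lp (n : ℕ) (g : FreeGroup α) : AW α ℤ := pa (n + 1) (mu g - 1)

theorem lp_mul {n : ℕ} {g h : FreeGroup α} (hg : g ∈ gam (FreeGroup α) n) (hh : h ∈ gam (FreeGroup α) n) :
    lp n (g * h) = lp n g + lp n h := by
  unfold lp
  have h1 : mu (g * h) - 1 = (mu g - 1) * (mu h - 1) + (mu g - 1) + (mu h - 1) := by rw [mu_mul]; noncomm_ring
  rw [h1, map_add, map_add, pa_zd (zd_mul (mu_gam hg) (mu_gam hh)) (by omega), zero_add]

theorem lp_one (n : ℕ) : lp n (1 : FreeGroup α) = 0 := by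
  unfold lp
  rw [mu_one, sub_self, map_zero]

theorem lp_inv {n : ℕ} {g : FreeGroup α} (hg : g ∈ gam (FreeGroup α) n) : lp n g⁻¹ = - lp n g := by
  rw [eq_neg_iff_add_eq_zero, ← lp_mul (inv_mem hg) hg, inv_mul_cancel, lp_one]

theorem lp_zero {n : ℕ} {g : FreeGroup α} (hg : g ∈ gam (FreeGroup α) (n + 1)) : lp n g = 0 :=
  pa_zd (mu_gam hg) (by omega)

/-- the leading part of a commutator -/
theorem lp_comm {i j : ℕ} {g h : FreeGroup α} (hg : g ∈ gam (FreeGroup α) i) (hh : h ∈ gam (FreeGroup α) j) :
    lp (i + j + 1) ⁅g, h⁆ = lp i g * lp j h - lp j h * lp i g := by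
  unfold lp
  rw [mu_comm]
  have h1 := zd_mul (mu_gam hg) (mu_gam hh)
  have h2 := zd_mul (mu_gam hh) (mu_gam hg)
  rw [show j + i + 1 = i + j + 1 by omega] at h2
  rw [pa_mul_unit (sub_mem h1 h2) (mu_nil _), map_sub, pa_mul (mu_gam hg) (mu_gam hh)]
  congr 1
  rw [show i + j + 1 + 1 = j + i + 2 by omega, pa_mul (mu_gam hh) (mu_gam hg)]

theorem lp_of (a : α) : lp 0 (FreeGroup.of a) = le a := by
  unfold lp
  rw [mu_of, add_sub_cancel_left]
  ext w
  rw [pa_apply, le_apply]
  by_cases h : w = [a]
  · rw [if_pos h, h]; rfl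
  · rw [if_neg h, ite_self]

end mag

end H82.S3
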